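import Mathlib

/-! Boolean-valued sets over a complete Boolean algebra `B`: the class `BSet B`, Boolean-valued
equality `bEq` and membership `bMem`, and their basic laws. -/

universe u

namespace Pool.Agent.Lib.BVM

/-- Names for sets of the Boolean-valued universe. -/
inductive BSet (B : Type u) : Type (u + 1)
  | mk (ι : Type u) (A : ι → BSet B) (b : ι → B) : BSet B

namespace BSet

variable {B : Type u}

/-- The index type of a name. -/
def Idx : BSet B → Type u
  | ⟨ι, _, _⟩ => ι

/-- The `i`-th potential element of a name. -/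
def fn : (x : BSet B) → x.Idx → BSet B
  | ⟨_, A, _⟩ => A

/-- The weight of the `i`-th potential element. -/
def val : (x : BSet B) → x.Idx → B
  | ⟨_, _, b⟩ => b

@[simp] theorem Idx_mk (ι : Type u) (A : ι → BSet B) (b : ι → B) : (mk ι A b).Idx = ι := rfl
@[simp] theorem fn_mk (ι : Type u) (A : ι → BSet B) (b : ι → B) (i : ι) :
    (mk ι A b).fn i = A i := rfl
@[simp] theorem val_mk (ι : Type u) (A : ι → BSet B) (b : ι → B) (i : ι) :
    (mk ι A b).val i = b i := rfl

theorem eta (x : BSet B) : mk x.Idx x.fn x.val = x := by cases x; rfl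

end BSet

open BSet

variable {B : Type u} [CompleteBooleanAlgebra B]

/-- Boolean value of equality. -/
def bEq : BSet B → BSet B → B
  | ⟨_, A, b⟩, ⟨_, C, c⟩ =>
    (⨅ i, (b i ⇨ ⨆ k, c k ⊓ bEq (A i) (C k))) ⊓ (⨅ k, (c k ⇨ ⨆ i, b i ⊓ bEq (A i) (C k)))

/-- Boolean value of membership. -/
def bMem (x y : BSet B) : B := ⨆ k, y.val k ⊓ bEq x (y.fn k)

theorem bEq_def (x y : BSet B) : bEq x y =
    (⨅ i, (x.val i ⇨ ⨆ k, y.val k ⊓ bEq (x.fn i) (y.fn k))) ⊓
      (⨅ k, (y.val k ⇨ ⨆ i, x.val i ⊓ bEq (x.fn i) (y.fn k))) := by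
  cases x; cases y; rfl

theorem bEq_mk {ι κ : Type u} (A : ι → BSet B) (b : ι → B) (C : κ → BSet B) (c : κ → B) :
    bEq (mk ι A b) (mk κ C c) =
    (⨅ i, (b i ⇨ ⨆ k, c k ⊓ bEq (A i) (C k))) ⊓ (⨅ k, (c k ⇨ ⨆ i, b i ⊓ bEq (A i) (C k))) := rfl

theorem bMem_mk (x : BSet B) {κ : Type u} (C : κ → BSet B) (c : κ → B) :
    bMem x (mk κ C c) = ⨆ k, c k ⊓ bEq x (C k) := rfl

theorem bEq_symm (x y : BSet B) : bEq x y = bEq y x := by
  induction x generalizing y with
  | mk ι A b ih =>
    cases y with
    | mk κ C c =>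
      rw [bEq_mk, bEq_mk, inf_comm]
      simp only [ih]

theorem bMem_eq (x y : BSet B) : bMem x y = ⨆ k, y.val k ⊓ bEq x (y.fn k) := rfl

/-- `x = y` in terms of membership of the generators. -/
theorem bEq_eq_mem (x y : BSet B) : bEq x y =
    (⨅ i, (x.val i ⇨ bMem (x.fn i) y)) ⊓ (⨅ k, (y.val k ⇨ bMem (y.fn k) x)) := by
  rw [bEq_def]
  simp only [bMem]
  congr 1
  refine iInf_congr fun k => ?_
  congr 1
  refine iSup_congr fun i => ?_
  rw [bEq_symm]

@[simp] theorem bEq_refl (x : BSet B) : bEq x x = ⊤ := by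
  induction x with
  | mk ι A b ih =>
    rw [bEq_mk, eq_top_iff]
    refine le_inf (le_iInf fun i => ?_) (le_iInf fun i => ?_)
    · rw [le_himp_iff]
      exact le_trans (by simp [ih]) (le_iSup (fun k => b k ⊓ bEq (A i) (A k)) i)
    · rw [le_himp_iff]
      exact le_trans (by simp [ih]) (le_iSup (fun k => b k ⊓ bEq (A k) (A i)) i)

theorem val_le_bMem (x : BSet B) (i : x.Idx) : x.val i ≤ bMem (x.fn i) x :=
  le_trans (by simp) (le_iSup (fun k => x.val k ⊓ bEq (x.fn i) (x.fn k)) i)

/-- generators of `x` are in `y` where `x = y`. -/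
theorem bEq_le_fn_mem (x y : BSet B) (i : x.Idx) : bEq x y ⊓ x.val i ≤ bMem (x.fn i) y := by
  rw [bEq_eq_mem, ← le_himp_iff]
  exact inf_le_left.trans (iInf_le _ i)

theorem bEq_trans_aux (x : BSet B) : ∀ y z : BSet B, bEq x y ⊓ bEq y z ≤ bEq x z := by
  induction x with
  | mk ι A b ih =>
    -- transitivity for generators in every order
    intro y z
    have key : ∀ (x' : BSet B), (∀ i : x'.Idx, ∀ y z : BSet B,
        bEq (x'.fn i) y ⊓ bEq y z ≤ bEq (x'.fn i) z) → ∀ y z : BSet B, ∀ i : x'.Idx,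
        bEq x' y ⊓ bEq y z ⊓ x'.val i ≤ bMem (x'.fn i) z := by
      intro x' hx y z i
      calc bEq x' y ⊓ bEq y z ⊓ x'.val i
          ≤ bMem (x'.fn i) y ⊓ bEq y z := by
            refine le_inf ?_ (inf_le_left.trans inf_le_right)
            exact (inf_le_inf_right _ inf_le_left).trans (bEq_le_fn_mem x' y i)
        _ = ⨆ k, y.val k ⊓ bEq (x'.fn i) (y.fn k) ⊓ bEq y z := by
            rw [bMem, iSup_inf_eq]
        _ ≤ bMem (x'.fn i) z := by
            refine iSup_le fun k => ?_
            calc y.val k ⊓ bEq (x'.fn i) (y.fn k) ⊓ bEq y z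
                ≤ bEq (x'.fn i) (y.fn k) ⊓ bMem (y.fn k) z := by
                  refine le_inf (inf_le_left.trans inf_le_right) ?_
                  refine le_trans (le_inf inf_le_right (inf_le_left.trans inf_le_left)) ?_
                  exact bEq_le_fn_mem y z k
              _ ≤ bMem (x'.fn i) z := by
                  rw [bMem, inf_iSup_eq, bMem]
                  refine iSup_mono fun l => ?_
                  refine le_inf (inf_le_right.trans inf_le_left) ?_
                  refine le_trans (le_inf inf_le_left (inf_le_right.trans inf_le_right)) ?_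
                  exact hx i _ _
    -- first half
    have h1 : ∀ i : ι, bEq (mk ι A b) y ⊓ bEq y z ⊓ b i ≤ bMem (A i) z :=
      fun i => key (mk ι A b) (fun i => ih i) y z i
    -- second half: generators of z
    have h2 : ∀ l : z.Idx, bEq (mk ι A b) y ⊓ bEq y z ⊓ z.val l ≤ bMem (z.fn l) (mk ι A b) := by
      intro l
      calc bEq (mk ι A b) y ⊓ bEq y z ⊓ z.val l
          ≤ bEq (mk ι A b) y ⊓ bMem (z.fn l) y := by
            refine le_inf (inf_le_left.trans inf_le_left) ?_
            refine le_trans (inf_le_inf_right _ inf_le_right) ?_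
            rw [bEq_symm y z]
            exact bEq_le_fn_mem z y l
        _ = ⨆ k, bEq (mk ι A b) y ⊓ (y.val k ⊓ bEq (z.fn l) (y.fn k)) := by
            rw [bMem, inf_iSup_eq]
        _ ≤ bMem (z.fn l) (mk ι A b) := by
            refine iSup_le fun k => ?_
            calc bEq (mk ι A b) y ⊓ (y.val k ⊓ bEq (z.fn l) (y.fn k))
                ≤ bMem (y.fn k) (mk ι A b) ⊓ bEq (z.fn l) (y.fn k) := by
                  refine le_inf ?_ (inf_le_right.trans inf_le_right)
                  refine le_trans (inf_le_inf_left _ inf_le_left) ?_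
                  rw [bEq_symm]
                  exact bEq_le_fn_mem y (mk ι A b) k
              _ ≤ bMem (z.fn l) (mk ι A b) := by
                  rw [bMem_mk, bMem_mk, iSup_inf_eq]
                  refine iSup_mono fun i => ?_
                  refine le_inf (inf_le_left.trans inf_le_left) ?_
                  rw [bEq_symm (y.fn k) (A i), bEq_symm (z.fn l) (y.fn k),
                    bEq_symm (z.fn l) (A i)]
                  refine le_trans (le_inf (inf_le_left.trans inf_le_right) inf_le_right) ?_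
                  exact ih i _ _
    rw [bEq_eq_mem (mk ι A b) z]
    refine le_inf (le_iInf fun i => ?_) (le_iInf fun l => ?_)
    · rw [le_himp_iff]; exact h1 i
    · rw [le_himp_iff]; exact h2 l

theorem bEq_trans (x y z : BSet B) : bEq x y ⊓ bEq y z ≤ bEq x z := bEq_trans_aux x y z

theorem bMem_congr_left (x y z : BSet B) : bEq x y ⊓ bMem x z ≤ bMem y z := by
  rw [bMem, inf_iSup_eq, bMem]
  refine iSup_mono fun k => ?_
  refine le_inf (inf_le_right.trans inf_le_left) ?_
  rw [bEq_symm x y]
  exact le_trans (le_inf inf_le_left (inf_le_right.trans inf_le_right)) (bEq_trans y x _)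

theorem bMem_congr_right (x y z : BSet B) : bEq x y ⊓ bMem z x ≤ bMem z y := by
  rw [bMem, inf_iSup_eq]
  refine iSup_le fun k => ?_
  calc bEq x y ⊓ (x.val k ⊓ bEq z (x.fn k))
      ≤ bEq (x.fn k) z ⊓ bMem (x.fn k) y := by
        refine le_inf ?_ ?_
        · rw [bEq_symm (x.fn k)]; exact inf_le_right.trans inf_le_right
        · exact le_trans (le_inf inf_le_left (inf_le_right.trans inf_le_left))
            (bEq_le_fn_mem x y k)
    _ ≤ bMem z y := bMem_congr_left _ _ _

/-- A Boolean-valued predicate is extensional when it respects Boolean-valued equality. -/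
def Ext1 (φ : BSet B → B) : Prop := ∀ x y, bEq x y ⊓ φ x ≤ φ y

theorem ext1_mem_left (z : BSet B) : Ext1 (fun x => bMem x z) := fun x y => bMem_congr_left x y z
theorem ext1_mem_right (z : BSet B) : Ext1 (fun x => bMem z x) :=
  fun x y => bMem_congr_right x y z
theorem ext1_eq (z : BSet B) : Ext1 (fun x => bEq x z) := fun x y => by
  rw [bEq_symm x y]; exact bEq_trans y x z

/-- Bounded existential quantifier. -/
theorem iSup_mem_inf {φ : BSet B → B} (h : Ext1 φ) (x : BSet B) :
    (⨆ z, bMem z x ⊓ φ z) = ⨆ i, x.val i ⊓ φ (x.fn i) := by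
  apply le_antisymm
  · refine iSup_le fun z => ?_
    rw [bMem, iSup_inf_eq]
    refine iSup_mono fun i => ?_
    refine le_inf (inf_le_left.trans inf_le_left) ?_
    exact le_trans (le_inf (inf_le_left.trans inf_le_right) inf_le_right) (h z (x.fn i))
  · refine iSup_le fun i => ?_
    exact le_trans (inf_le_inf_right _ (val_le_bMem x i)) (le_iSup (fun z => bMem z x ⊓ φ z) (x.fn i))

/-- Bounded universal quantifier. -/
theorem iInf_mem_himp {φ : BSet B → B} (h : Ext1 φ) (x : BSet B) :
    (⨅ z, (bMem z x ⇨ φ z)) = ⨅ i, (x.val i ⇨ φ (x.fn i)) := by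
  apply le_antisymm
  · refine le_iInf fun i => ?_
    exact (iInf_le _ (x.fn i)).trans (himp_le_himp_right (val_le_bMem x i))
  · refine le_iInf fun z => ?_
    rw [le_himp_iff, bMem, inf_iSup_eq]
    refine iSup_le fun i => ?_
    calc (⨅ i, (x.val i ⇨ φ (x.fn i))) ⊓ (x.val i ⊓ bEq z (x.fn i))
        ≤ bEq (x.fn i) z ⊓ φ (x.fn i) := by
          refine le_inf ?_ ?_
          · rw [bEq_symm (x.fn i)]; exact inf_le_right.trans inf_le_right
          · exact le_trans (inf_le_inf (iInf_le _ i) inf_le_left) himp_inf_le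
      _ ≤ φ z := h _ _

/-- Extensionality: equality is coextensionality. -/
theorem bEq_eq_iInf (x y : BSet B) :
    bEq x y = ⨅ z, ((bMem z x ⇨ bMem z y) ⊓ (bMem z y ⇨ bMem z x)) := by
  have h1 : bEq x y = (⨅ z, (bMem z x ⇨ bMem z y)) ⊓ (⨅ z, (bMem z y ⇨ bMem z x)) := by
    rw [iInf_mem_himp (ext1_mem_left y), iInf_mem_himp (ext1_mem_left x), bEq_eq_mem]
  rw [h1, ← iInf_inf_eq]

end Pool.Agent.Lib.BVM
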