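import Mathlib

/-! First-order formulas of the language of set theory (de Bruijn indices) and satisfaction in a
structure `(M, E)`. -/

namespace Pool.Agent.Lib.BVM

/-- Formulas of set theory, with variables numbered by natural numbers (de Bruijn indices:
a quantifier binds variable `0` and shifts the others). -/
inductive Fm : Type
  | mem (i j : ℕ) : Fm
  | eq (i j : ℕ) : Fm
  | neg (φ : Fm) : Fm
  | and (φ ψ : Fm) : Fm
  | or (φ ψ : Fm) : Fm
  | imp (φ ψ : Fm) : Fm
  | iff (φ ψ : Fm) : Fm
  | all (φ : Fm) : Fm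
  | ex (φ : Fm) : Fm

/-- Assignment `v` shifted by one, with `x` put in front. -/
def scons {M : Type*} (x : M) (v : ℕ → M) : ℕ → M
  | 0 => x
  | n + 1 => v n

@[simp] theorem scons_zero {M : Type*} (x : M) (v : ℕ → M) : scons x v 0 = x := rfl
@[simp] theorem scons_succ {M : Type*} (x : M) (v : ℕ → M) (n : ℕ) : scons x v (n + 1) = v n :=
  rfl

/-- Satisfaction of a formula in the structure `(M, E)` under the assignment `v`. -/
def sat {M : Type*} (E : M → M → Prop) : Fm → (ℕ → M) → Prop
  | .mem i j, v => E (v i) (v j)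
  | .eq i j, v => v i = v j
  | .neg φ, v => ¬ sat E φ v
  | .and φ ψ, v => sat E φ v ∧ sat E ψ v
  | .or φ ψ, v => sat E φ v ∨ sat E ψ v
  | .imp φ ψ, v => sat E φ v → sat E ψ v
  | .iff φ ψ, v => sat E φ v ↔ sat E ψ v
  | .all φ, v => ∀ x, sat E φ (scons x v)
  | .ex φ, v => ∃ x, sat E φ (scons x v)

end Pool.Agent.Lib.BVM
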