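import Mathlib
import Pool.Agent.Lib.BVM.BSet
import Pool.Agent.Lib.BVM.FmDef

/-! Boolean values in `BSet B` of first-order formulas of the language of set theory. -/

universe u

namespace Pool.Agent.Lib.BVM

variable {B : Type u} [CompleteBooleanAlgebra B]

/-- Boolean value of a formula. -/
def bval : Fm → (ℕ → BSet B) → B
  | .mem i j, v => bMem (v i) (v j)
  | .eq i j, v => bEq (v i) (v j)
  | .neg φ, v => (bval φ v)ᶜ
  | .and φ ψ, v => bval φ v ⊓ bval ψ v
  | .or φ ψ, v => bval φ v ⊔ bval ψ v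
  | .imp φ ψ, v => bval φ v ⇨ bval ψ v
  | .iff φ ψ, v => (bval φ v ⇨ bval ψ v) ⊓ (bval ψ v ⇨ bval φ v)
  | .all φ, v => ⨅ x, bval φ (scons x v)
  | .ex φ, v => ⨆ x, bval φ (scons x v)

/-- Pointwise equality of assignments. -/
def vEq (v w : ℕ → BSet B) : B := ⨅ i, bEq (v i) (w i)

theorem vEq_le (v w : ℕ → BSet B) (i : ℕ) : vEq v w ≤ bEq (v i) (w i) := iInf_le _ i

theorem vEq_symm (v w : ℕ → BSet B) : vEq v w = vEq w v := by
  unfold vEq; exact iInf_congr fun i => bEq_symm _ _

theorem vEq_refl (v : ℕ → BSet B) : vEq v v = ⊤ := by simp [vEq]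

theorem vEq_scons (x y : BSet B) (v w : ℕ → BSet B) :
    vEq (scons x v) (scons y w) = bEq x y ⊓ vEq v w := by
  apply le_antisymm
  · exact le_inf (vEq_le (scons x v) (scons y w) 0)
      (le_iInf fun i => vEq_le (scons x v) (scons y w) (i + 1))
  · refine le_iInf fun i => ?_
    cases i with
    | zero => exact inf_le_left
    | succ n => exact inf_le_right.trans (vEq_le v w n)

theorem inf_himp_aux {e a a' b b' : B} (h1 : e ⊓ a' ≤ a) (h2 : e ⊓ b ≤ b') :
    e ⊓ (a ⇨ b) ≤ (a' ⇨ b') := by
  rw [le_himp_iff]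
  calc e ⊓ (a ⇨ b) ⊓ a' ≤ e ⊓ ((a ⇨ b) ⊓ a) := by
        refine le_inf (inf_le_left.trans inf_le_left) ?_
        exact le_inf (inf_le_left.trans inf_le_right)
          (le_trans (le_inf (inf_le_left.trans inf_le_left) inf_le_right) h1)
    _ ≤ e ⊓ b := inf_le_inf_left _ himp_inf_le
    _ ≤ b' := h2

theorem bval_congr (φ : Fm) : ∀ v w : ℕ → BSet B, vEq v w ⊓ bval φ v ≤ bval φ w := by
  induction φ with
  | mem i j =>
    intro v w
    simp only [bval]
    calc vEq v w ⊓ bMem (v i) (v j)
        ≤ bEq (v j) (w j) ⊓ bMem (w i) (v j) := by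
          refine le_inf (inf_le_left.trans (vEq_le v w j)) ?_
          exact le_trans (inf_le_inf_right _ (vEq_le v w i)) (bMem_congr_left _ _ _)
      _ ≤ bMem (w i) (w j) := bMem_congr_right _ _ _
  | eq i j =>
    intro v w
    simp only [bval]
    calc vEq v w ⊓ bEq (v i) (v j)
        ≤ bEq (w i) (v j) ⊓ bEq (v j) (w j) := by
          refine le_inf ?_ (inf_le_left.trans (vEq_le v w j))
          refine le_trans (inf_le_inf_right _ (vEq_le v w i)) ?_
          rw [bEq_symm (v i) (w i)]
          exact bEq_trans _ _ _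
      _ ≤ bEq (w i) (w j) := bEq_trans _ _ _
  | neg φ ih =>
    intro v w
    simp only [bval]
    rw [← himp_bot, ← himp_bot]
    refine inf_himp_aux ?_ inf_le_right
    rw [vEq_symm]; exact ih w v
  | and φ ψ ih1 ih2 =>
    intro v w
    simp only [bval]
    exact le_inf (le_trans (inf_le_inf_left _ inf_le_left) (ih1 v w))
      (le_trans (inf_le_inf_left _ inf_le_right) (ih2 v w))
  | or φ ψ ih1 ih2 =>
    intro v w
    simp only [bval]
    rw [inf_sup_left]
    exact sup_le_sup (ih1 v w) (ih2 v w)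
  | imp φ ψ ih1 ih2 =>
    intro v w
    simp only [bval]
    refine inf_himp_aux ?_ (ih2 v w)
    rw [vEq_symm]; exact ih1 w v
  | iff φ ψ ih1 ih2 =>
    intro v w
    simp only [bval]
    refine le_inf ?_ ?_
    · refine le_trans (inf_le_inf_left _ inf_le_left) (inf_himp_aux ?_ (ih2 v w))
      rw [vEq_symm]; exact ih1 w v
    · refine le_trans (inf_le_inf_left _ inf_le_right) (inf_himp_aux ?_ (ih1 v w))
      rw [vEq_symm]; exact ih2 w v
  | all φ ih =>
    intro v w
    simp only [bval]
    refine le_iInf fun x => ?_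
    refine le_trans (inf_le_inf_left _ (iInf_le _ x)) ?_
    have := ih (scons x v) (scons x w)
    rwa [vEq_scons, bEq_refl, top_inf_eq] at this
  | ex φ ih =>
    intro v w
    simp only [bval]
    rw [inf_iSup_eq]
    refine iSup_mono fun x => ?_
    have := ih (scons x v) (scons x w)
    rwa [vEq_scons, bEq_refl, top_inf_eq] at this

theorem ext1_bval (φ : Fm) (v : ℕ → BSet B) : Ext1 (fun x => bval φ (scons x v)) := by
  intro x y
  have := bval_congr φ (scons x v) (scons y v)
  rwa [vEq_scons, vEq_refl, inf_top_eq] at this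

end Pool.Agent.Lib.BVM
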