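import Mathlib
import Pool.Agent.Lib.BVM.Fm

/-! Mixtures of names, the maximum principle, disjoint refinements. -/

universe u

namespace Pool.Agent.Lib.BVM

open BSet

variable {B : Type u} [CompleteBooleanAlgebra B]

/-- Every family can be refined to a pairwise disjoint family with the same supremum. -/
theorem exists_disjoint_refine {ι : Type*} (b : ι → B) :
    ∃ a : ι → B, (∀ i, a i ≤ b i) ∧ Pairwise (fun i j => Disjoint (a i) (a j)) ∧
      (⨆ i, a i) = ⨆ i, b i := by
  classical
  let r : ι → ι → Prop := WellOrderingRel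
  have : IsWellOrder ι r := WellOrderingRel.isWellOrder
  let a : ι → B := fun i => b i \ ⨆ j, ⨆ (_ : r j i), b j
  have ha : ∀ i, a i ≤ b i := fun i => sdiff_le
  have key : ∀ i j, r i j → Disjoint (a i) (a j) := by
    intro i j hij
    rw [disjoint_comm]
    refine Disjoint.mono_right (ha i) ?_
    refine Disjoint.mono_right (b := b i) (c := ⨆ k, ⨆ (_ : r k j), b k) ?_ disjoint_sdiff_self_left
    exact le_iSup_of_le i (le_iSup_of_le hij le_rfl)
  refine ⟨a, ha, ?_, ?_⟩
  · intro i j hij
    rcases trichotomous_of r i j with h | h | h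
    · exact key i j h
    · exact absurd h hij
    · exact (key j i h).symm
  · apply le_antisymm
    · exact iSup_mono ha
    · refine iSup_le fun i => ?_
      induction i using (IsWellFounded.wf (r := r)).induction with
      | _ i ih =>
        calc b i ≤ a i ⊔ ⨆ j, ⨆ (_ : r j i), b j := by
              simp only [a, sdiff_sup_self]; exact le_sup_left
          _ ≤ ⨆ i, a i := sup_le (le_iSup a i) (iSup_le fun j => iSup_le fun h => ih j h)

/-- The mixture of names `x i` with weights `b i`. -/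
def mix {ι : Type u} (b : ι → B) (x : ι → BSet B) : BSet B :=
  mk (Σ i, (x i).Idx) (fun p => (x p.1).fn p.2) (fun p => b p.1 ⊓ (x p.1).val p.2)

theorem bMem_mix {ι : Type u} (b : ι → B) (x : ι → BSet B) (z : BSet B) :
    bMem z (mix b x) = ⨆ i, b i ⊓ bMem z (x i) := by
  unfold mix
  rw [bMem_mk, iSup_sigma]
  refine iSup_congr fun i => ?_
  rw [bMem, inf_iSup_eq]
  refine iSup_congr fun k => ?_
  rw [inf_assoc]

theorem mix_spec {ι : Type u} {b : ι → B} (hb : Pairwise (fun i j => Disjoint (b i) (b j)))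
    (x : ι → BSet B) (i : ι) : b i ≤ bEq (mix b x) (x i) := by
  rw [bEq_eq_iInf]
  refine le_iInf fun z => ?_
  refine le_inf ?_ ?_
  · rw [le_himp_iff, bMem_mix, inf_iSup_eq]
    refine iSup_le fun j => ?_
    by_cases h : i = j
    · subst h; exact inf_le_right.trans inf_le_right
    · have := (hb h).le_bot
      calc b i ⊓ (b j ⊓ bMem z (x j)) ≤ b i ⊓ b j := inf_le_inf_left _ inf_le_left
        _ ≤ ⊥ := this
        _ ≤ _ := bot_le
  · rw [le_himp_iff, bMem_mix]
    exact le_iSup (fun j => b j ⊓ bMem z (x j)) i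

/-- Small-indexed maximum principle. -/
theorem exists_mix_of_family {φ : BSet B → B} (h : Ext1 φ) {ι : Type u} (b : ι → B)
    (y : ι → BSet B) (hy : ∀ i, b i ≤ φ (y i)) : ∃ x, (⨆ i, b i) ≤ φ x := by
  obtain ⟨a, ha, hd, hs⟩ := exists_disjoint_refine b
  refine ⟨mix a y, ?_⟩
  rw [← hs]
  refine iSup_le fun i => ?_
  have h1 : a i ≤ bEq (mix a y) (y i) := mix_spec hd y i
  have h2 : a i ≤ φ (y i) := (ha i).trans (hy i)
  calc a i ≤ bEq (y i) (mix a y) ⊓ φ (y i) := le_inf (by rw [bEq_symm]; exact h1) h2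
    _ ≤ φ (mix a y) := h _ _

/-- Maximum principle: an existential statement has a witness of full value. -/
theorem exists_max {φ : BSet B → B} (h : Ext1 φ) : ∃ x, φ x = ⨆ y, φ y := by
  classical
  choose y hy using fun s : Set.range φ => s.2
  obtain ⟨x, hx⟩ := exists_mix_of_family h (fun s : Set.range φ => (s : B)) y
    (fun s => (hy s).ge)
  refine ⟨x, le_antisymm (le_iSup φ x) ?_⟩
  refine le_trans ?_ hx
  refine iSup_le fun z => ?_
  exact le_iSup (fun s : Set.range φ => (s : B)) ⟨φ z, z, rfl⟩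

/-- Dual form. -/
theorem exists_min {φ : BSet B → B} (h : Ext1 φ) : ∃ x, φ x = ⨅ y, φ y := by
  have h' : Ext1 (fun x => (φ x)ᶜ) := by
    intro x y
    dsimp only
    rw [← himp_bot, ← himp_bot]
    refine inf_himp_aux ?_ inf_le_right
    rw [bEq_symm]; exact h y x
  obtain ⟨x, hx⟩ := exists_max h'
  refine ⟨x, ?_⟩
  rw [← compl_inj_iff]
  rw [hx, compl_iInf]

end Pool.Agent.Lib.BVM
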