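import Mathlib
import Pool.Agent.Lib.BVM.Mix

/-! The quotient of the Boolean-valued universe by an ultrafilter, and the theorem of Los. -/

universe u

namespace Pool.Agent.Lib.BVM

open BSet

/-- Ultrafilters on a Boolean algebra. -/
structure Ult (B : Type u) [BooleanAlgebra B] where
  S : B → Prop
  top' : S ⊤
  mono' : ∀ {a b}, a ≤ b → S a → S b
  inf' : ∀ {a b}, S a → S b → S (a ⊓ b)
  compl' : ∀ {a}, S aᶜ ↔ ¬ S a

theorem exists_ult {B : Type u} [BooleanAlgebra B] {b : B} (hb : b ≠ ⊥) : ∃ U : Ult B, U.S b := by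
  have hd : Disjoint ((Order.PFilter.principal b : Order.PFilter B) : Set B)
      ((Order.Ideal.principal (⊥ : B) : Order.Ideal B) : Set B) := by
    rw [Set.disjoint_left]
    intro x hx hx'
    have h1 : b ≤ x := Order.PFilter.mem_principal.1 hx
    have h2 : x ≤ ⊥ := Order.Ideal.mem_principal.1 hx'
    exact hb (le_bot_iff.1 (h1.trans h2))
  obtain ⟨J, hJ, -, hJ'⟩ := DistribLattice.prime_ideal_of_disjoint_filter_ideal hd
  have hbJ : b ∉ J := fun h => Set.disjoint_left.1 hJ' (Order.PFilter.mem_principal.2 le_rfl) h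
  have htop : (⊤ : B) ∉ J := fun h => hbJ (J.lower le_top h)
  refine ⟨⟨fun a => a ∉ J, htop, ?_, ?_, ?_⟩, hbJ⟩
  · intro a c h ha hc; exact ha (J.lower h hc)
  · intro a c ha hc h
    rcases hJ.mem_or_mem h with h | h
    · exact ha h
    · exact hc h
  · intro a
    constructor
    · intro h h'
      have : a ⊓ aᶜ ∈ J := by rw [inf_compl_eq_bot]; exact J.bot_mem
      rcases hJ.mem_or_mem this with h1 | h1
      · exact h' h1
      · exact h h1
    · intro h h'
      rw [not_not] at h
      apply htop
      have := Order.Ideal.sup_mem h h'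
      rwa [sup_compl_eq_top] at this

namespace Ult

variable {B : Type u} [CompleteBooleanAlgebra B] (U : Ult B)

theorem bot' : ¬ U.S ⊥ := by
  have := (U.compl' (a := ⊥)).1 (by rw [compl_bot]; exact U.top')
  exact this

theorem inf_iff {a b : B} : U.S (a ⊓ b) ↔ U.S a ∧ U.S b :=
  ⟨fun h => ⟨U.mono' inf_le_left h, U.mono' inf_le_right h⟩, fun h => U.inf' h.1 h.2⟩

theorem sup_iff {a b : B} : U.S (a ⊔ b) ↔ U.S a ∨ U.S b := by
  constructor
  · intro h
    by_contra h'
    push Not at h'
    have h1 := U.compl'.2 h'.1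
    have h2 := U.compl'.2 h'.2
    have := U.inf' (U.inf' h1 h2) h
    rw [← compl_sup, compl_inf_eq_bot] at this
    exact U.bot' this
  · rintro (h | h)
    · exact U.mono' le_sup_left h
    · exact U.mono' le_sup_right h

theorem himp_iff {a b : B} : U.S (a ⇨ b) ↔ (U.S a → U.S b) := by
  rw [himp_eq, sup_iff, U.compl']
  tauto

/-- The setoid of equality modulo `U`. -/
def setoid : Setoid (BSet B) where
  r x y := U.S (bEq x y)
  iseqv := {
    refl := fun x => by rw [bEq_refl]; exact U.top'
    symm := fun {x y} h => by rw [bEq_symm]; exact h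
    trans := fun {x y z} h1 h2 => U.mono' (bEq_trans x y z) (U.inf' h1 h2) }

/-- The quotient model. -/
def Mod : Type (u + 1) := Quotient U.setoid

/-- Class of a name. -/
def cls (x : BSet B) : U.Mod := Quotient.mk U.setoid x

theorem cls_eq_iff (x y : BSet B) : U.cls x = U.cls y ↔ U.S (bEq x y) := by
  constructor
  · intro h; exact Quotient.exact h
  · intro h; exact Quotient.sound h

/-- Membership of the quotient model. -/
def E : U.Mod → U.Mod → Prop :=
  Quotient.lift₂ (fun x y => U.S (bMem x y)) (by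
    intro x y x' y' hx hy
    have hx' : U.S (bEq x x') := hx
    have hy' : U.S (bEq y y') := hy
    have h1 : ∀ a b c d : BSet B, U.S (bEq a c) → U.S (bEq b d) → U.S (bMem a b) →
        U.S (bMem c d) := by
      intro a b c d h1 h2 h3
      exact U.mono' (bMem_congr_right b d c) (U.inf' h2
        (U.mono' (bMem_congr_left a c b) (U.inf' h1 h3)))
    refine propext ⟨h1 _ _ _ _ hx' hy', h1 _ _ _ _ ?_ ?_⟩
    · rw [bEq_symm]; exact hx'
    · rw [bEq_symm]; exact hy')

theorem E_cls (x y : BSet B) : U.E (U.cls x) (U.cls y) ↔ U.S (bMem x y) := Iff.rfl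

theorem exists_cls (m : U.Mod) : ∃ x, U.cls x = m := Quotient.exists_rep m

/-- A universally quantified statement. -/
theorem iInf_iff {φ : BSet B → B} (h : Ext1 φ) : U.S (⨅ x, φ x) ↔ ∀ x, U.S (φ x) := by
  constructor
  · intro h' x; exact U.mono' (iInf_le _ x) h'
  · intro h'
    obtain ⟨x, hx⟩ := exists_min h
    rw [← hx]; exact h' x

theorem iSup_iff {φ : BSet B → B} (h : Ext1 φ) : U.S (⨆ x, φ x) ↔ ∃ x, U.S (φ x) := by
  constructor
  · intro h'
    obtain ⟨x, hx⟩ := exists_max h
    rw [← hx] at h'; exact ⟨x, h'⟩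
  · rintro ⟨x, hx⟩; exact U.mono' (le_iSup φ x) hx

/-- Theorem of Los. -/
theorem los (φ : Fm) : ∀ v : ℕ → BSet B, sat U.E φ (fun i => U.cls (v i)) ↔ U.S (bval φ v) := by
  induction φ with
  | mem i j => intro v; exact Iff.rfl
  | eq i j => intro v; exact U.cls_eq_iff _ _
  | neg φ ih => intro v; simp only [sat, bval, ih, U.compl']
  | and φ ψ ih1 ih2 => intro v; simp only [sat, bval, ih1, ih2, U.inf_iff]
  | or φ ψ ih1 ih2 => intro v; simp only [sat, bval, ih1, ih2, U.sup_iff]
  | imp φ ψ ih1 ih2 => intro v; simp only [sat, bval, ih1, ih2, U.himp_iff]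
  | iff φ ψ ih1 ih2 =>
    intro v; simp only [sat, bval, ih1, ih2, U.himp_iff, U.inf_iff]
    exact iff_iff_implies_and_implies
  | all φ ih =>
    intro v
    simp only [sat, bval]
    rw [U.iInf_iff (ext1_bval φ v)]
    constructor
    · intro h x
      rw [← ih]
      have := h (U.cls x)
      convert this using 1
      funext i; cases i <;> rfl
    · intro h m
      obtain ⟨x, rfl⟩ := U.exists_cls m
      have := (ih (scons x v)).2 (h x)
      convert this using 1
      funext i; cases i <;> rfl
  | ex φ ih =>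
    intro v
    simp only [sat, bval]
    rw [U.iSup_iff (ext1_bval φ v)]
    constructor
    · rintro ⟨m, hm⟩
      obtain ⟨x, rfl⟩ := U.exists_cls m
      refine ⟨x, (ih (scons x v)).1 ?_⟩
      convert hm using 1
      funext i; cases i <;> rfl
    · rintro ⟨x, hx⟩
      refine ⟨U.cls x, ?_⟩
      have := (ih (scons x v)).2 hx
      convert this using 1
      funext i; cases i <;> rfl

end Ult

end Pool.Agent.Lib.BVM
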