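import Mathlib
import Pool.Agent.Lib.BVM.FmDef

/-! The axioms of ZFC for a structure `(M, E)`. -/

namespace Pool.Agent.Lib.BVM

/-- `(M, E)` is a model of ZFC. Separation and Replacement are stated for all first-order formulas
with parameters. -/
structure IsZFC {M : Type*} (E : M → M → Prop) : Prop where
  extensionality : ∀ x y, (∀ z, E z x ↔ E z y) → x = y
  foundation : ∀ x, (∃ y, E y x) → ∃ y, E y x ∧ ∀ z, E z x → ¬ E z y
  pairing : ∀ x y, ∃ p, ∀ z, E z p ↔ z = x ∨ z = y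
  union : ∀ x, ∃ u, ∀ z, E z u ↔ ∃ y, E y x ∧ E z y
  power : ∀ x, ∃ p, ∀ z, E z p ↔ ∀ t, E t z → E t x
  infinity : ∃ w, (∃ e, E e w ∧ ∀ z, ¬ E z e) ∧
    ∀ x, E x w → ∃ s, E s w ∧ ∀ z, E z s ↔ E z x ∨ z = x
  separation : ∀ (φ : Fm) (v : ℕ → M) (x : M),
    ∃ y, ∀ z, E z y ↔ E z x ∧ sat E φ (scons z v)
  replacement : ∀ (φ : Fm) (v : ℕ → M) (x : M),
    (∀ a, E a x → ∃! b, sat E φ (scons a (scons b v))) →
      ∃ y, ∀ b, E b y ↔ ∃ a, E a x ∧ sat E φ (scons a (scons b v))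
  choice : ∀ x, (∀ y, E y x → ∃ z, E z y) →
    (∀ y y', E y x → E y' x → (∃ z, E z y ∧ E z y') → y = y') →
      ∃ t, ∀ y, E y x → ∃! z, E z y ∧ E z t

end Pool.Agent.Lib.BVM
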