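import Mathlib
import Pool.Agent.Lib.BVM.Model
import Pool.Agent.Lib.BVM.ZFCDef

/-! The axioms of ZFC hold in the quotient of the Boolean-valued universe. -/

namespace Pool.Agent.Lib.BVM

open BSet

universe u

variable {B : Type u} [CompleteBooleanAlgebra B]

/-! ### Names for pairs, unions, power sets, separation -/

/-- unordered pair -/
def upair (x y : BSet B) : BSet B := mk (ULift Bool) (fun i => if i.down then x else y) (fun _ => ⊤)

theorem bMem_upair (z x y : BSet B) : bMem z (upair x y) = bEq z x ⊔ bEq z y := by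
  unfold upair
  rw [bMem_mk]
  apply le_antisymm
  · refine iSup_le fun i => ?_
    rcases i with ⟨_ | _⟩
    · simp
    · simp
  · refine sup_le ?_ ?_
    · refine le_iSup_of_le ⟨true⟩ (by simp)
    · refine le_iSup_of_le ⟨false⟩ (by simp)

/-- union -/
def bUnion (x : BSet B) : BSet B :=
  mk (Σ i : x.Idx, (x.fn i).Idx) (fun p => (x.fn p.1).fn p.2) (fun p => x.val p.1 ⊓ (x.fn p.1).val p.2)

theorem bMem_bUnion (z x : BSet B) : bMem z (bUnion x) = ⨆ y, bMem y x ⊓ bMem z y := by
  rw [iSup_mem_inf (ext1_mem_right z)]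
  unfold bUnion
  rw [bMem_mk, iSup_sigma]
  refine iSup_congr fun i => ?_
  rw [bMem, inf_iSup_eq]
  refine iSup_congr fun k => ?_
  rw [inf_assoc]

/-- separation for a Boolean-valued predicate -/
def bSep (x : BSet B) (φ : BSet B → B) : BSet B := mk x.Idx x.fn (fun i => x.val i ⊓ φ (x.fn i))

theorem bMem_bSep (x : BSet B) {φ : BSet B → B} (h : Ext1 φ) (z : BSet B) :
    bMem z (bSep x φ) = bMem z x ⊓ φ z := by
  unfold bSep
  rw [bMem_mk, bMem, iSup_inf_eq]
  refine iSup_congr fun i => ?_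
  apply le_antisymm
  · refine le_inf (le_inf (inf_le_left.trans inf_le_left) inf_le_right) ?_
    refine le_trans (le_inf inf_le_right (inf_le_left.trans inf_le_right)) ?_
    rw [bEq_symm]; exact h (x.fn i) z
  · refine le_inf (le_inf (inf_le_left.trans inf_le_left) ?_) (inf_le_left.trans inf_le_right)
    exact le_trans (le_inf (inf_le_left.trans inf_le_right) inf_le_right) (h z (x.fn i))

/-- power set -/
def bPow (x : BSet B) : BSet B :=
  mk (x.Idx → B) (fun s => mk x.Idx x.fn s) (fun s => ⨅ i, (s i ⇨ bMem (x.fn i) x))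

theorem bSub_eq (z x : BSet B) : (⨅ t, (bMem t z ⇨ bMem t x)) = ⨅ i, (z.val i ⇨ bMem (z.fn i) x) :=
  iInf_mem_himp (ext1_mem_left x) z

theorem bMem_bPow (z x : BSet B) : bMem z (bPow x) = ⨅ t, (bMem t z ⇨ bMem t x) := by
  apply le_antisymm
  · unfold bPow
    rw [bMem_mk]
    refine iSup_le fun s => ?_
    refine le_iInf fun t => ?_
    rw [le_himp_iff]
    calc (⨅ i, (s i ⇨ bMem (x.fn i) x)) ⊓ bEq z (mk x.Idx x.fn s) ⊓ bMem t z
        ≤ (⨅ i, (s i ⇨ bMem (x.fn i) x)) ⊓ bMem t (mk x.Idx x.fn s) := by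
          refine le_inf (inf_le_left.trans inf_le_left) ?_
          exact le_trans (le_inf (inf_le_left.trans inf_le_right) inf_le_right)
            (bMem_congr_right z _ t)
      _ ≤ bMem t x := by
          rw [bMem_mk, inf_iSup_eq]
          refine iSup_le fun i => ?_
          calc (⨅ i, (s i ⇨ bMem (x.fn i) x)) ⊓ (s i ⊓ bEq t (x.fn i))
              ≤ bEq (x.fn i) t ⊓ bMem (x.fn i) x := by
                refine le_inf ?_ ?_
                · rw [bEq_symm (x.fn i)]; exact inf_le_right.trans inf_le_right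
                · exact le_trans (inf_le_inf (iInf_le _ i) inf_le_left) himp_inf_le
            _ ≤ bMem t x := bMem_congr_left _ _ _
  · let s : x.Idx → B := fun i => bMem (x.fn i) z
    have h1 : (⨅ t, (bMem t z ⇨ bMem t x)) ≤ ⨅ i, (s i ⇨ bMem (x.fn i) x) :=
      le_iInf fun i => iInf_le _ (x.fn i)
    have h2 : (⨅ t, (bMem t z ⇨ bMem t x)) ≤ bEq z (mk x.Idx x.fn s) := by
      rw [bEq_eq_iInf]
      refine le_iInf fun t => le_inf ?_ ?_
      · rw [le_himp_iff]
        calc (⨅ t, (bMem t z ⇨ bMem t x)) ⊓ bMem t z ≤ bMem t x ⊓ bMem t z := by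
              refine le_inf ?_ inf_le_right
              exact le_trans (inf_le_inf_right _ (iInf_le _ t)) himp_inf_le
          _ ≤ bMem t (mk x.Idx x.fn s) := by
              rw [bMem_mk, bMem, iSup_inf_eq]
              refine iSup_mono fun i => ?_
              refine le_inf ?_ (inf_le_left.trans inf_le_right)
              exact le_trans (le_inf (inf_le_left.trans inf_le_right) inf_le_right)
                (bMem_congr_left t (x.fn i) z)
      · rw [le_himp_iff]
        refine inf_le_right.trans ?_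
        rw [bMem_mk]
        refine iSup_le fun i => ?_
        rw [inf_comm, bEq_symm]
        exact bMem_congr_left (x.fn i) t z
    unfold bPow
    rw [bMem_mk]
    exact le_trans (le_inf h1 h2)
      (le_iSup (fun s : x.Idx → B => (⨅ i, (s i ⇨ bMem (x.fn i) x)) ⊓ bEq z (mk x.Idx x.fn s)) s)

/-- the empty name -/
def bEmpty : BSet B := mk PEmpty PEmpty.elim PEmpty.elim

theorem bMem_bEmpty (z : BSet B) : bMem z bEmpty = ⊥ := by
  unfold bEmpty; rw [bMem_mk]; simp

/-- the successor `x ∪ {x}` -/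
def bSucc (x : BSet B) : BSet B := bUnion (upair x (upair x x))

theorem bMem_bSucc (z x : BSet B) : bMem z (bSucc x) = bMem z x ⊔ bEq z x := by
  unfold bSucc
  rw [bMem_bUnion]
  apply le_antisymm
  · refine iSup_le fun y => ?_
    rw [bMem_upair, inf_sup_right]
    refine sup_le_sup ?_ ?_
    · exact bMem_congr_right y x z
    · refine le_trans (bMem_congr_right y _ z) ?_
      rw [bMem_upair, sup_idem]
  · refine sup_le ?_ ?_
    · refine le_trans ?_ (le_iSup _ x)
      rw [bMem_upair, bEq_refl, top_sup_eq, top_inf_eq]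
    · refine le_trans ?_ (le_iSup _ (upair x x))
      rw [bMem_upair, bEq_refl, sup_top_eq, top_inf_eq, bMem_upair, sup_idem]

/-- No set is an element of itself. -/
theorem bMem_self (x : BSet B) : bMem x x = ⊥ := by
  induction x with
  | mk ι A b ih =>
    rw [bMem_mk, iSup_eq_bot]
    intro k
    rw [eq_bot_iff, ← ih k]
    calc b k ⊓ bEq (mk ι A b) (A k) ≤ bEq (mk ι A b) (A k) ⊓ bMem (A k) (mk ι A b) := by
          refine le_inf inf_le_right (inf_le_left.trans ?_)
          exact val_le_bMem (mk ι A b) k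
      _ ≤ bMem (A k) (A k) := bMem_congr_right _ _ _

/-- Boolean-valued foundation: induction on membership. -/
theorem bFound (x : BSet B) {φ : BSet B → B} (h : Ext1 φ) :
    φ x ≤ ⨆ y, φ y ⊓ ⨅ z, (bMem z y ⇨ (φ z)ᶜ) := by
  induction x with
  | mk ι A b ih =>
    set R := ⨆ y, φ y ⊓ ⨅ z, (bMem z y ⇨ (φ z)ᶜ) with hR
    have h' : Ext1 (fun x => (φ x)ᶜ) := by
      intro x y
      dsimp only
      rw [← himp_bot, ← himp_bot]
      refine inf_himp_aux ?_ inf_le_right
      rw [bEq_symm]; exact h y x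
    have h1 : φ (mk ι A b) ⊓ Rᶜ ≤ ⨅ z, (bMem z (mk ι A b) ⇨ (φ z)ᶜ) := by
      rw [iInf_mem_himp h']
      refine le_iInf fun i => ?_
      have h3 : Rᶜ ≤ (φ (A i))ᶜ := compl_le_compl (ih i)
      exact (inf_le_right.trans h3).trans le_himp
    have h2 : φ (mk ι A b) ⊓ Rᶜ ≤ R :=
      le_trans (le_inf inf_le_left h1)
        (le_iSup (fun y => φ y ⊓ ⨅ z, (bMem z y ⇨ (φ z)ᶜ)) (mk ι A b))
    have h3 : φ (mk ι A b) ⊓ Rᶜ ≤ ⊥ := by
      rw [← inf_compl_eq_bot (a := R)]
      exact le_inf h2 inf_le_right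
    rw [← sdiff_eq, le_bot_iff, sdiff_eq_bot_iff] at h3
    exact h3

end Pool.Agent.Lib.BVM
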