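import Mathlib
import Pool.Agent.Lib.BVM.ZFC1

/-! The axioms of ZFC hold in the quotient of the Boolean-valued universe, part 2. -/

namespace Pool.Agent.Lib.BVM

open BSet

universe u

variable {B : Type u} [CompleteBooleanAlgebra B] (U : Ult B)

theorem Ext1.inf {φ ψ : BSet B → B} (h1 : Ext1 φ) (h2 : Ext1 ψ) : Ext1 (fun x => φ x ⊓ ψ x) :=
  fun x y => le_inf (le_trans (inf_le_inf_left _ inf_le_left) (h1 x y))
    (le_trans (inf_le_inf_left _ inf_le_right) (h2 x y))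

theorem Ext1.sup {φ ψ : BSet B → B} (h1 : Ext1 φ) (h2 : Ext1 ψ) : Ext1 (fun x => φ x ⊔ ψ x) :=
  fun x y => by
    dsimp only
    rw [inf_sup_left]; exact sup_le_sup (h1 x y) (h2 x y)

theorem Ext1.compl {φ : BSet B → B} (h : Ext1 φ) : Ext1 (fun x => (φ x)ᶜ) := by
  intro x y
  dsimp only
  rw [← himp_bot, ← himp_bot]
  refine inf_himp_aux ?_ inf_le_right
  rw [bEq_symm]; exact h y x

theorem Ext1.himp {φ ψ : BSet B → B} (h1 : Ext1 φ) (h2 : Ext1 ψ) : Ext1 (fun x => φ x ⇨ ψ x) := by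
  intro x y
  refine inf_himp_aux ?_ (h2 x y)
  rw [bEq_symm]; exact h1 y x

theorem Ext1.const (b : B) : Ext1 (fun _ => b) := fun _ _ => inf_le_right

theorem Ext1.iSup {ι : Sort*} {φ : ι → BSet B → B} (h : ∀ i, Ext1 (φ i)) :
    Ext1 (fun x => ⨆ i, φ i x) := fun x y => by
  dsimp only
  rw [inf_iSup_eq]; exact iSup_mono fun i => h i x y

theorem Ext1.iInf {ι : Sort*} {φ : ι → BSet B → B} (h : ∀ i, Ext1 (φ i)) :
    Ext1 (fun x => ⨅ i, φ i x) := fun x y =>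
  le_iInf fun i => le_trans (inf_le_inf_left _ (iInf_le _ i)) (h i x y)

namespace Ult

theorem ext_ax : ∀ x y : U.Mod, (∀ z, U.E z x ↔ U.E z y) → x = y := by
  intro x y h
  obtain ⟨x, rfl⟩ := U.exists_cls x
  obtain ⟨y, rfl⟩ := U.exists_cls y
  rw [cls_eq_iff, bEq_eq_iInf]
  rw [U.iInf_iff]
  · intro z
    rw [U.inf_iff, U.himp_iff, U.himp_iff]
    exact ⟨(h (U.cls z)).1, (h (U.cls z)).2⟩
  · exact ((ext1_mem_left x).himp (ext1_mem_left y)).inf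
      ((ext1_mem_left y).himp (ext1_mem_left x))

theorem found_ax : ∀ x : U.Mod, (∃ y, U.E y x) → ∃ y, U.E y x ∧ ∀ z, U.E z x → ¬ U.E z y := by
  rintro x ⟨y, hy⟩
  obtain ⟨x, rfl⟩ := U.exists_cls x
  obtain ⟨y, rfl⟩ := U.exists_cls y
  have h1 := bFound y (ext1_mem_left x)
  have h2 := U.mono' h1 hy
  have hext : ∀ y : BSet B, Ext1 (fun z => bMem z y ⇨ (bMem z x)ᶜ) := fun y =>
    (ext1_mem_left y).himp (ext1_mem_left x).compl
  have hext' : Ext1 (fun y => bMem y x ⊓ ⨅ z, (bMem z y ⇨ (bMem z x)ᶜ)) :=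
    (ext1_mem_left x).inf (Ext1.iInf fun z => (ext1_mem_right z).himp (Ext1.const _))
  rw [U.iSup_iff hext'] at h2
  obtain ⟨t, ht⟩ := h2
  rw [U.inf_iff, U.iInf_iff (hext t)] at ht
  refine ⟨U.cls t, ht.1, ?_⟩
  intro z hz hzt
  obtain ⟨z, rfl⟩ := U.exists_cls z
  have := ht.2 z
  rw [U.himp_iff, U.compl'] at this
  exact this hzt hz

theorem pair_ax : ∀ x y : U.Mod, ∃ p, ∀ z, U.E z p ↔ z = x ∨ z = y := by
  intro x y
  obtain ⟨x, rfl⟩ := U.exists_cls x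
  obtain ⟨y, rfl⟩ := U.exists_cls y
  refine ⟨U.cls (upair x y), fun z => ?_⟩
  obtain ⟨z, rfl⟩ := U.exists_cls z
  rw [E_cls, bMem_upair, U.sup_iff, cls_eq_iff, cls_eq_iff]

theorem union_ax : ∀ x : U.Mod, ∃ u, ∀ z, U.E z u ↔ ∃ y, U.E y x ∧ U.E z y := by
  intro x
  obtain ⟨x, rfl⟩ := U.exists_cls x
  refine ⟨U.cls (bUnion x), fun z => ?_⟩
  obtain ⟨z, rfl⟩ := U.exists_cls z
  rw [E_cls, bMem_bUnion, U.iSup_iff ((ext1_mem_left x).inf (ext1_mem_right z))]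
  constructor
  · rintro ⟨y, hy⟩
    rw [U.inf_iff] at hy
    exact ⟨U.cls y, hy⟩
  · rintro ⟨y, hy⟩
    obtain ⟨y, rfl⟩ := U.exists_cls y
    exact ⟨y, U.inf_iff.2 hy⟩

theorem power_ax : ∀ x : U.Mod, ∃ p, ∀ z, U.E z p ↔ ∀ t, U.E t z → U.E t x := by
  intro x
  obtain ⟨x, rfl⟩ := U.exists_cls x
  refine ⟨U.cls (bPow x), fun z => ?_⟩
  obtain ⟨z, rfl⟩ := U.exists_cls z
  rw [E_cls, bMem_bPow, U.iInf_iff ((ext1_mem_left z).himp (ext1_mem_left x))]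
  constructor
  · intro h t
    obtain ⟨t, rfl⟩ := U.exists_cls t
    exact U.himp_iff.1 (h t)
  · intro h t
    exact U.himp_iff.2 (h (U.cls t))

theorem sat_scons (φ : Fm) (x : BSet B) (v : ℕ → BSet B) :
    sat U.E φ (scons (U.cls x) (fun i => U.cls (v i))) ↔ U.S (bval φ (scons x v)) := by
  rw [← U.los]
  have : scons (U.cls x) (fun i => U.cls (v i)) = fun i => U.cls (scons x v i) := by
    funext i; cases i <;> rfl
  rw [this]

theorem exists_cls_v (v : ℕ → U.Mod) : ∃ w : ℕ → BSet B, (fun i => U.cls (w i)) = v := by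
  choose w hw using fun i => U.exists_cls (v i)
  exact ⟨w, funext hw⟩

theorem sep_ax : ∀ (φ : Fm) (v : ℕ → U.Mod) (x : U.Mod),
    ∃ y, ∀ z, U.E z y ↔ U.E z x ∧ sat U.E φ (scons z v) := by
  intro φ v x
  obtain ⟨v, rfl⟩ := U.exists_cls_v v
  obtain ⟨x, rfl⟩ := U.exists_cls x
  refine ⟨U.cls (bSep x (fun z => bval φ (scons z v))), fun z => ?_⟩
  obtain ⟨z, rfl⟩ := U.exists_cls z
  rw [E_cls, bMem_bSep x (ext1_bval φ v), U.inf_iff, U.sat_scons, E_cls]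

/-- Collection for Boolean-valued binary predicates. -/
theorem exists_coll (x : BSet B) (φ : BSet B → BSet B → B) (h1 : ∀ y, Ext1 (fun a => φ a y))
    (h2 : ∀ a, Ext1 (φ a)) :
    ∃ Y : BSet B, ∀ a, bMem a x ⊓ (⨆ b, φ a b) ≤ ⨆ b, bMem b Y ⊓ φ a b := by
  choose y hy using fun i : x.Idx => exists_max (h2 (x.fn i))
  refine ⟨BSet.mk x.Idx y (fun _ => ⊤), fun a => ?_⟩
  rw [bMem, iSup_inf_eq]
  refine iSup_le fun i => ?_
  refine le_trans ?_ (le_iSup _ (y i))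
  refine le_inf ?_ ?_
  · refine le_trans ?_ (val_le_bMem (BSet.mk x.Idx y (fun _ => ⊤)) i)
    exact le_top
  · have h3 : Ext1 (fun a => ⨆ b, φ a b) := Ext1.iSup fun b => h1 b
    have h4 : x.val i ⊓ bEq a (x.fn i) ⊓ (⨆ b, φ a b) ≤ φ (x.fn i) (y i) := by
      rw [hy]
      exact le_trans (le_inf (inf_le_left.trans inf_le_right) inf_le_right) (h3 a (x.fn i))
    refine le_trans (le_inf (inf_le_left.trans inf_le_right) h4) ?_
    rw [bEq_symm]
    exact h1 (y i) (x.fn i) a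

theorem repl_ax : ∀ (φ : Fm) (v : ℕ → U.Mod) (x : U.Mod),
    (∀ a, U.E a x → ∃! b, sat U.E φ (scons a (scons b v))) →
      ∃ y, ∀ b, U.E b y ↔ ∃ a, U.E a x ∧ sat U.E φ (scons a (scons b v)) := by
  intro φ v x hfun
  obtain ⟨v, rfl⟩ := U.exists_cls_v v
  obtain ⟨x, rfl⟩ := U.exists_cls x
  set ψ : BSet B → BSet B → B := fun a b => bval φ (scons a (scons b v)) with hψ
  have hs : ∀ a b, sat U.E φ (scons (U.cls a) (scons (U.cls b) (fun i => U.cls (v i)))) ↔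
      U.S (ψ a b) := by
    intro a b
    have : scons (U.cls b) (fun i => U.cls (v i)) = fun i => U.cls (scons b v i) := by
      funext i; cases i <;> rfl
    rw [this, U.sat_scons]
  have h1 : ∀ y, Ext1 (fun a => ψ a y) := fun y => ext1_bval φ (scons y v)
  have h2 : ∀ a, Ext1 (ψ a) := by
    intro a b c
    have := bval_congr φ (scons a (scons b v)) (scons a (scons c v))
    rwa [vEq_scons, vEq_scons, vEq_refl, inf_top_eq, bEq_refl, top_inf_eq] at this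
  obtain ⟨Y, hY⟩ := exists_coll x ψ h1 h2
  have h3 : Ext1 (fun b => ⨆ a, bMem a x ⊓ ψ a b) := Ext1.iSup fun a => (Ext1.const _).inf (h2 a)
  have h4 : ∀ b, Ext1 (fun a => bMem a x ⊓ ψ a b) := fun b => (ext1_mem_left x).inf (h1 b)
  refine ⟨U.cls (bSep Y (fun b => ⨆ a, bMem a x ⊓ ψ a b)), fun b => ?_⟩
  obtain ⟨b, rfl⟩ := U.exists_cls b
  rw [E_cls, bMem_bSep Y h3, U.inf_iff, U.iSup_iff (h4 b)]
  constructor
  · rintro ⟨-, a, ha⟩
    rw [U.inf_iff] at ha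
    exact ⟨U.cls a, ha.1, (hs a b).2 ha.2⟩
  · rintro ⟨a, ha, hab⟩
    obtain ⟨a, rfl⟩ := U.exists_cls a
    refine ⟨?_, a, U.inf_iff.2 ⟨ha, (hs a b).1 hab⟩⟩
    have h5 : U.S (⨆ b, bMem b Y ⊓ ψ a b) := by
      refine U.mono' (hY a) (U.inf' ha ?_)
      exact U.mono' (le_iSup (ψ a) b) ((hs a b).1 hab)
    rw [U.iSup_iff ((ext1_mem_left Y).inf (h2 a))] at h5
    obtain ⟨c, hc⟩ := h5
    rw [U.inf_iff] at hc
    obtain ⟨d, -, hd⟩ := hfun (U.cls a) ha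
    have e1 := hd (U.cls b) hab
    have e2 := hd (U.cls c) ((hs a c).2 hc.2)
    have e3 : U.cls c = U.cls b := by rw [e1, e2]
    rw [cls_eq_iff] at e3
    exact U.mono' (bMem_congr_left c b Y) (U.inf' e3 hc.1)

end Ult

end Pool.Agent.Lib.BVM
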