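import Mathlib
import Pool.Agent.Lib.BVM.ZFC2

/-! Check names of the elements of a well-ordered type. -/

namespace Pool.Agent.Lib.BVM

open BSet

universe u

section

variable {B : Type u} [CompleteBooleanAlgebra B] {I : Type u} [LinearOrder I] [WellFoundedLT I]

/-- The name of the initial segment below `i`: `chk i = {chk j | j < i}`. -/
noncomputable def chk (B : Type u) [CompleteBooleanAlgebra B] {I : Type u} [LinearOrder I]
    [WellFoundedLT I] : I → BSet B :=
  (wellFounded_lt (α := I)).fix (fun i ih => mk {j : I // j < i} (fun j => ih j.1 j.2) (fun _ => ⊤))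

theorem chk_def (i : I) : chk B i = mk {j : I // j < i} (fun j => chk B j.1) (fun _ => ⊤) :=
  WellFounded.fix_eq _ _ _

/-- The name of the whole set of the `chk i`. -/
noncomputable def chkAll (B : Type u) [CompleteBooleanAlgebra B] (I : Type u) [LinearOrder I]
    [WellFoundedLT I] : BSet B := mk I (fun i => chk B i) (fun _ => ⊤)

theorem bMem_chk (z : BSet B) (i : I) : bMem z (chk B i) = ⨆ j : {j : I // j < i}, bEq z (chk B j.1) := by
  rw [chk_def, bMem_mk]
  simp

theorem bMem_chkAll (z : BSet B) : bMem z (chkAll B I) = ⨆ i : I, bEq z (chk B i) := by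
  rw [chkAll, bMem_mk]
  simp

theorem chk_mem_of_lt {i j : I} (h : i < j) : bMem (chk B i) (chk B j) = ⊤ := by
  rw [bMem_chk, eq_top_iff]
  refine le_trans ?_ (le_iSup _ (⟨i, h⟩ : {k : I // k < j}))
  rw [bEq_refl]

theorem chk_eq_of_ne {i j : I} (h : i ≠ j) : bEq (chk B i) (chk B j) = ⊥ := by
  rcases lt_or_gt_of_ne h with h | h
  · rw [eq_bot_iff, ← bMem_self (chk B i)]
    calc bEq (chk B i) (chk B j) ≤ bEq (chk B j) (chk B i) ⊓ bMem (chk B i) (chk B j) := by
          rw [chk_mem_of_lt h, inf_top_eq, bEq_symm]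
      _ ≤ bMem (chk B i) (chk B i) := bMem_congr_right _ _ _
  · rw [eq_bot_iff, ← bMem_self (chk B j)]
    calc bEq (chk B i) (chk B j) ≤ bEq (chk B i) (chk B j) ⊓ bMem (chk B j) (chk B i) := by
          rw [chk_mem_of_lt h, inf_top_eq]
      _ ≤ bMem (chk B j) (chk B j) := bMem_congr_right _ _ _

theorem chk_mem_of_not_lt {i j : I} (h : ¬ i < j) : bMem (chk B i) (chk B j) = ⊥ := by
  rw [bMem_chk, iSup_eq_bot]
  rintro ⟨k, hk⟩
  exact chk_eq_of_ne (fun e => h (e ▸ hk))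

open Classical in
theorem chk_mem (i j : I) : bMem (chk B i) (chk B j) = if i < j then ⊤ else ⊥ := by
  split_ifs with h
  · exact chk_mem_of_lt h
  · exact chk_mem_of_not_lt h

open Classical in
theorem chk_eq (i j : I) : bEq (chk B i) (chk B j) = if i = j then ⊤ else ⊥ := by
  split_ifs with h
  · rw [h, bEq_refl]
  · exact chk_eq_of_ne h

theorem chk_mem_chkAll (i : I) : bMem (chk B i) (chkAll B I) = ⊤ := by
  rw [bMem_chkAll, eq_top_iff]
  refine le_trans ?_ (le_iSup _ i)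
  rw [bEq_refl]

/-- Bounded quantifiers over `chkAll`. -/
theorem iInf_chkAll {φ : BSet B → B} (h : Ext1 φ) :
    (⨅ z, (bMem z (chkAll B I) ⇨ φ z)) = ⨅ i : I, φ (chk B i) := by
  rw [iInf_mem_himp h]
  show (⨅ i : I, (⊤ ⇨ φ (chk B i))) = _
  simp

theorem iSup_chkAll {φ : BSet B → B} (h : Ext1 φ) :
    (⨆ z, bMem z (chkAll B I) ⊓ φ z) = ⨆ i : I, φ (chk B i) := by
  rw [iSup_mem_inf h]
  show (⨆ i : I, (⊤ ⊓ φ (chk B i))) = _
  simp

theorem iInf_chk {φ : BSet B → B} (h : Ext1 φ) (i : I) :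
    (⨅ z, (bMem z (chk B i) ⇨ φ z)) = ⨅ j : {j : I // j < i}, φ (chk B j.1) := by
  rw [iInf_mem_himp h, chk_def]
  show (⨅ j : {j : I // j < i}, (⊤ ⇨ φ (chk B j.1))) = _
  simp

theorem iSup_chk {φ : BSet B → B} (h : Ext1 φ) (i : I) :
    (⨆ z, bMem z (chk B i) ⊓ φ z) = ⨆ j : {j : I // j < i}, φ (chk B j.1) := by
  rw [iSup_mem_inf h, chk_def]
  show (⨆ j : {j : I // j < i}, (⊤ ⊓ φ (chk B j.1))) = _
  simp

end

section Nat

variable {B : Type} [CompleteBooleanAlgebra B]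

/-- The successor of a natural number. -/
theorem bMem_chk_succ (z : BSet B) (n : ℕ) :
    bMem z (chk B (n + 1)) = bMem z (chk B n) ⊔ bEq z (chk B n) := by
  rw [bMem_chk, bMem_chk]
  apply le_antisymm
  · refine iSup_le ?_
    rintro ⟨k, hk⟩
    rcases Nat.lt_succ_iff_lt_or_eq.1 hk with h | h
    · exact le_sup_of_le_left (le_iSup (fun j : {j : ℕ // j < n} => bEq z (chk B j.1)) ⟨k, h⟩)
    · subst h; exact le_sup_right
  · refine sup_le (iSup_le ?_) ?_
    · rintro ⟨k, hk⟩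
      exact le_iSup (fun j : {j : ℕ // j < n + 1} => bEq z (chk B j.1)) ⟨k, by omega⟩
    · exact le_iSup (fun j : {j : ℕ // j < n + 1} => bEq z (chk B j.1)) ⟨n, by omega⟩

theorem bMem_chk_zero (z : BSet B) : bMem z (chk B (0 : ℕ)) = ⊥ := by
  rw [bMem_chk, iSup_eq_bot]
  rintro ⟨k, hk⟩
  exact absurd hk (Nat.not_lt_zero k)

end Nat

end Pool.Agent.Lib.BVM
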