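import Mathlib

/-! The complete Boolean algebra of regular open sets of a topological space, and evaluation of
Boolean values at comeagerly many points. -/

universe u

open TopologicalSpace Filter Topology

namespace Pool.Agent.Lib.BVM

/-- The regular open sets of `X`. -/
def RO (X : Type u) [TopologicalSpace X] : Type u := Heyting.Regular (Opens X)

section

variable {X : Type u} [TopologicalSpace X]

@[instance_reducible] noncomputable def roCL : CompleteLattice (Heyting.Regular (Opens X)) :=
  (Heyting.Regular.gi (α := Opens X)).liftCompleteLattice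

noncomputable instance instCBARO : CompleteBooleanAlgebra (RO X) :=
  { (inferInstance : BooleanAlgebra (Heyting.Regular (Opens X))) with
    sSup := (roCL (X := X)).sSup
    sInf := (roCL (X := X)).sInf
    isLUB_sSup := (roCL (X := X)).isLUB_sSup
    isGLB_sInf := (roCL (X := X)).isGLB_sInf }

/-- The underlying open set. -/
def RO.op (b : RO X) : Opens X := Heyting.Regular.val b

/-- The regular open set generated by an open set. -/
def RO.of (V : Opens X) : RO X := Heyting.Regular.toRegular V

theorem RO.op_of (V : Opens X) : (RO.of V).op = Vᶜᶜ := rfl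

theorem RO.op_reg (b : RO X) : (b.op)ᶜᶜ = b.op := Heyting.Regular.prop b

theorem RO.le_iff_op {a b : RO X} : a ≤ b ↔ a.op ≤ b.op := Iff.rfl

/-- `x` lies in the regular open set `b`. -/
def At (x : X) (b : RO X) : Prop := x ∈ b.op

theorem le_iff_at {a b : RO X} : a ≤ b ↔ ∀ x, At x a → At x b := Iff.rfl

theorem at_mono {a b : RO X} (h : a ≤ b) {x : X} (hx : At x a) : At x b := h hx

@[simp] theorem at_top (x : X) : At x (⊤ : RO X) := trivial

@[simp] theorem at_bot (x : X) : ¬ At x (⊥ : RO X) := fun h => h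

@[simp] theorem at_inf (x : X) (a b : RO X) : At x (a ⊓ b) ↔ At x a ∧ At x b := Iff.rfl

theorem isOpen_at (b : RO X) : IsOpen {x | At x b} := b.op.2

/-- Membership in the Heyting complement of an open set. -/
theorem mem_compl_opens {x : X} {V : Opens X} : x ∈ Vᶜ ↔ x ∉ closure (V : Set X) := by
  have h : ∀ W : Opens X, W ≤ Vᶜ ↔ ∀ y ∈ W, y ∉ closure (V : Set X) := by
    intro W
    rw [le_compl_iff_disjoint_right]
    constructor
    · intro hd y hy hc
      rw [mem_closure_iff] at hc
      obtain ⟨z, hz1, hz2⟩ := hc W W.2 hy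
      have : z ∈ (W ⊓ V : Opens X) := ⟨hz1, hz2⟩
      rw [hd.eq_bot] at this
      exact this
    · intro hW
      rw [disjoint_iff_inf_le]
      rintro z ⟨hz1, hz2⟩
      exact absurd (subset_closure hz2) (hW z hz1)
  constructor
  · intro hx
    exact (h Vᶜ).1 le_rfl x hx
  · intro hx
    let W : Opens X := ⟨(closure (V : Set X))ᶜ, isClosed_closure.isOpen_compl⟩
    have hW : W ≤ Vᶜ := (h W).2 (fun y hy => hy)
    exact hW hx

theorem residual_compl (V : Opens X) : ∀ᶠ x in residual X, (x ∈ Vᶜ ↔ x ∉ V) := by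
  have h := closure_residualEq (α := X) (V.2.isLocallyClosed)
  filter_upwards [h] with x hx
  rw [mem_compl_opens]
  have hx' : (x ∈ closure (V : Set X)) = (x ∈ (V : Set X)) := hx
  exact not_congr (by rw [hx']; exact Iff.rfl)

theorem residual_compl_compl (V : Opens X) : ∀ᶠ x in residual X, (x ∈ Vᶜᶜ ↔ x ∈ V) := by
  filter_upwards [residual_compl V, residual_compl Vᶜ] with x h1 h2
  rw [h2, h1, not_not]

theorem at_compl (b : RO X) : ∀ᶠ x in residual X, (At x bᶜ ↔ ¬ At x b) :=
  residual_compl b.op

theorem at_sup (a b : RO X) : ∀ᶠ x in residual X, (At x (a ⊔ b) ↔ At x a ∨ At x b) := by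
  filter_upwards [residual_compl_compl (a.op ⊔ b.op)] with x hx
  exact hx

theorem at_himp (a b : RO X) : ∀ᶠ x in residual X, (At x (a ⇨ b) ↔ (At x a → At x b)) := by
  have : a ⇨ b = b ⊔ aᶜ := himp_eq
  rw [this]
  filter_upwards [at_sup b aᶜ, at_compl a] with x h1 h2
  rw [h1, h2]
  tauto

theorem op_iSup {ι : Sort*} (b : ι → RO X) :
    (⨆ i, b i : RO X).op = (⨆ i, (b i).op)ᶜᶜ := by
  apply le_antisymm
  · have : (⨆ i, b i : RO X) ≤ RO.of (⨆ i, (b i).op) := by
      refine iSup_le fun i => ?_
      have h1 : (b i).op ≤ ⨆ i, (b i).op := le_iSup (fun i => (b i).op) i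
      exact h1.trans le_compl_compl
    exact this
  · have h1 : (⨆ i, (b i).op) ≤ (⨆ i, b i : RO X).op :=
      iSup_le fun i => (le_iSup b i : b i ≤ ⨆ i, b i)
    have h2 := compl_le_compl (compl_le_compl h1)
    rwa [RO.op_reg] at h2

theorem op_iInf {ι : Sort*} (b : ι → RO X) :
    (⨅ i, b i : RO X).op = (⨅ i, (b i).op) := by
  apply le_antisymm
  · exact le_iInf fun i => (iInf_le b i : (⨅ i, b i) ≤ b i)
  · have h1 : RO.of (⨅ i, (b i).op) ≤ ⨅ i, b i := by
      refine le_iInf fun i => ?_
      have h2 : (⨅ i, (b i).op) ≤ (b i).op := iInf_le (fun i => (b i).op) i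
      have h3 := compl_le_compl (compl_le_compl h2)
      rw [RO.op_reg] at h3
      exact h3
    exact le_trans le_compl_compl h1

theorem at_iSup {ι : Sort*} (b : ι → RO X) :
    ∀ᶠ x in residual X, (At x (⨆ i, b i) ↔ ∃ i, At x (b i)) := by
  filter_upwards [residual_compl_compl (⨆ i, (b i).op)] with x hx
  unfold At
  rw [op_iSup, hx, Opens.mem_iSup]

/-- In one direction, at every point. -/
theorem at_of_iInf {ι : Sort*} {b : ι → RO X} {x : X} (h : At x (⨅ i, b i)) (i : ι) : At x (b i) :=
  at_mono (iInf_le b i) h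

theorem at_iSup_of {ι : Sort*} {b : ι → RO X} {x : X} (i : ι) (h : At x (b i)) : At x (⨆ i, b i) :=
  at_mono (le_iSup b i) h

theorem at_iInf {ι : Sort*} [Countable ι] (b : ι → RO X) :
    ∀ᶠ x in residual X, (At x (⨅ i, b i) ↔ ∀ i, At x (b i)) := by
  have e : (⨅ i, b i) = (⨆ i, (b i)ᶜ)ᶜ := by rw [compl_iSup]; simp
  have h1 := at_compl (⨆ i, (b i)ᶜ)
  have h2 := at_iSup (fun i => (b i)ᶜ)
  have h3 : ∀ᶠ x in residual X, ∀ i, (At x (b i)ᶜ ↔ ¬ At x (b i)) := by
    rw [eventually_countable_forall]
    exact fun i => at_compl (b i)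
  rw [e]
  filter_upwards [h1, h2, h3] with x a1 a2 a3
  rw [a1, a2]
  push Not
  exact forall_congr' fun i => by rw [a3 i, not_not]

/-- The regular open set equal to a Baire measurable set modulo meager sets. -/
noncomputable def bet (A : Set X) : RO X := by
  classical
  exact if h : BaireMeasurableSet A then
    RO.of ⟨h.residualEq_isOpen.choose, h.residualEq_isOpen.choose_spec.1⟩
  else ⊥

theorem at_bet {A : Set X} (h : BaireMeasurableSet A) :
    ∀ᶠ x in residual X, (At x (bet A) ↔ x ∈ A) := by
  have e : bet A = RO.of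
      ⟨h.residualEq_isOpen.choose, h.residualEq_isOpen.choose_spec.1⟩ := by
    unfold bet; rw [dif_pos h]
  rw [e]
  filter_upwards [residual_compl_compl
    (⟨h.residualEq_isOpen.choose, h.residualEq_isOpen.choose_spec.1⟩ : Opens X),
    h.residualEq_isOpen.choose_spec.2] with x h1 h2
  have h3 : x ∈ A ↔ x ∈ h.residualEq_isOpen.choose := by
    have : (x ∈ A) = (x ∈ h.residualEq_isOpen.choose) := h2
    rw [this]
  rw [h3]
  exact h1

theorem at_baire (b : RO X) : BaireMeasurableSet {x | At x b} := (isOpen_at b).baireMeasurableSet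

end

section Baire

variable {X : Type u} [TopologicalSpace X] [BaireSpace X]

/-- A property that holds comeagerly on a nonempty open set is satisfied somewhere. -/
theorem exists_of_residual {O : Set X} (hO : IsOpen O) (hne : O.Nonempty) {Q : X → Prop}
    (h : ∀ᶠ x in residual X, x ∈ O → Q x) : ∃ x ∈ O, Q x := by
  have hd : Dense {x | x ∈ O → Q x} := dense_of_mem_residual h
  obtain ⟨x, hx, hx'⟩ := hd.inter_open_nonempty O hO hne
  exact ⟨x, hx, hx' hx⟩

theorem le_iff_residual {a b : RO X} : a ≤ b ↔ ∀ᶠ x in residual X, At x a → At x b := by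
  constructor
  · intro h
    exact Eventually.of_forall fun x => at_mono h
  · intro h
    by_contra hab
    have hne : a ⊓ bᶜ ≠ ⊥ := by
      intro h'
      apply hab
      rw [← sdiff_eq_bot_iff, sdiff_eq]
      exact h'
    have hne' : ({x | At x (a ⊓ bᶜ)} : Set X).Nonempty := by
      by_contra hem
      apply hne
      rw [← le_bot_iff, le_iff_at]
      intro x hx
      exact absurd ⟨x, hx⟩ hem
    have h2 : ∀ᶠ x in residual X, x ∈ {x | At x (a ⊓ bᶜ)} → False := by
      filter_upwards [h, at_compl b] with x h1 h2 h3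
      exact (h2.1 h3.2) (h1 h3.1)
    obtain ⟨x, -, hx⟩ := exists_of_residual (isOpen_at _) hne' h2
    exact hx

theorem eq_iff_residual {a b : RO X} : a = b ↔ ∀ᶠ x in residual X, (At x a ↔ At x b) := by
  rw [le_antisymm_iff, le_iff_residual, le_iff_residual, ← eventually_and]
  exact eventually_congr (Eventually.of_forall fun x => iff_iff_implies_and_implies.symm)

theorem eq_top_iff_residual {a : RO X} : a = ⊤ ↔ ∀ᶠ x in residual X, At x a := by
  rw [eq_iff_residual]
  simp

theorem eq_bot_iff_residual {a : RO X} : a = ⊥ ↔ ∀ᶠ x in residual X, ¬ At x a := by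
  rw [eq_iff_residual]
  simp

/-- `b ≤ ⨆ i, c i` can be checked locally. -/
theorem bet_mono {A C : Set X} (hA : BaireMeasurableSet A) (hC : BaireMeasurableSet C)
    (h : ∀ᶠ x in residual X, x ∈ A → x ∈ C) : bet A ≤ bet C := by
  rw [le_iff_residual]
  filter_upwards [at_bet hA, at_bet hC, h] with x h1 h2 h3 h4
  exact h2.2 (h3 (h1.1 h4))

theorem le_bet_iff {A : Set X} (hA : BaireMeasurableSet A) {b : RO X} :
    b ≤ bet A ↔ ∀ᶠ x in residual X, At x b → x ∈ A := by
  rw [le_iff_residual]
  constructor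
  · intro h
    filter_upwards [h, at_bet hA] with x h1 h2 h3
    exact h2.1 (h1 h3)
  · intro h
    filter_upwards [h, at_bet hA] with x h1 h2 h3
    exact h2.2 (h1 h3)

end Baire

end Pool.Agent.Lib.BVM
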