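import Mathlib
import Pool.Agent.Lib.BVM.RO

/-! The Baire space of maximal filters of a preorder, forcing. -/

universe u

open TopologicalSpace Filter Topology

namespace Pool.Agent.Lib.BVM

variable {P : Type u} [Preorder P]

/-- Filters of a preorder (as sets of conditions; smaller conditions are stronger). -/
structure IsFilt (F : Set P) : Prop where
  ne : F.Nonempty
  up : ∀ {a b}, a ∈ F → a ≤ b → b ∈ F
  dir : ∀ {a b}, a ∈ F → b ∈ F → ∃ c ∈ F, c ≤ a ∧ c ≤ b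

theorem isFilt_principal (p : P) : IsFilt {q : P | p ≤ q} :=
  ⟨⟨p, le_rfl⟩, fun h1 h2 => le_trans h1 h2, fun h1 h2 => ⟨p, le_rfl, h1, h2⟩⟩

theorem isFilt_seq (p : ℕ → P) (hp : ∀ n, p (n + 1) ≤ p n) : IsFilt {q : P | ∃ n, p n ≤ q} := by
  have hanti : Antitone p := antitone_nat_of_succ_le hp
  refine ⟨⟨p 0, 0, le_rfl⟩, ?_, ?_⟩
  · rintro a b ⟨n, hn⟩ h; exact ⟨n, hn.trans h⟩
  · rintro a b ⟨n, hn⟩ ⟨m, hm⟩
    exact ⟨p (max n m), ⟨_, le_rfl⟩, (hanti (le_max_left n m)).trans hn,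
      (hanti (le_max_right n m)).trans hm⟩

variable (P) in
/-- The space of maximal filters. -/
def Pt : Type u := {F : Set P // Maximal IsFilt F}

/-- `p` belongs to the maximal filter `F`. -/
def Pt.has (F : Pt P) (p : P) : Prop := p ∈ F.1

theorem exists_maximal_filt {F : Set P} (hF : IsFilt F) : ∃ G : Pt P, F ⊆ G.1 := by
  obtain ⟨G, hG1, hG2⟩ := zorn_subset_nonempty {F : Set P | IsFilt F} (by
    intro c hc hchain hne
    refine ⟨⋃₀ c, ?_, fun s hs => Set.subset_sUnion_of_mem hs⟩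
    obtain ⟨s0, hs0⟩ := hne
    refine ⟨?_, ?_, ?_⟩
    · obtain ⟨x, hx⟩ := (hc hs0).ne
      exact ⟨x, s0, hs0, hx⟩
    · rintro a b ⟨s, hs, ha⟩ h
      exact ⟨s, hs, (hc hs).up ha h⟩
    · rintro a b ⟨s, hs, ha⟩ ⟨t, ht, hb⟩
      rcases hchain.total hs ht with h | h
      · obtain ⟨d, hd, h1⟩ := (hc ht).dir (h ha) hb
        exact ⟨d, ⟨t, ht, hd⟩, h1⟩
      · obtain ⟨d, hd, h1⟩ := (hc hs).dir ha (h hb)
        exact ⟨d, ⟨s, hs, hd⟩, h1⟩) F hF
  exact ⟨⟨G, hG2⟩, hG1⟩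

theorem exists_pt (p : P) : ∃ G : Pt P, G.has p := by
  obtain ⟨G, hG⟩ := exists_maximal_filt (isFilt_principal p)
  exact ⟨G, hG (le_refl p)⟩

theorem Pt.up (F : Pt P) {p q : P} (h : F.has p) (hq : p ≤ q) : F.has q := F.2.prop.up h hq

theorem Pt.dir (F : Pt P) {p q : P} (hp : F.has p) (hq : F.has q) : ∃ r, F.has r ∧ r ≤ p ∧ r ≤ q :=
  F.2.prop.dir hp hq

theorem Pt.nonempty (F : Pt P) : ∃ p, F.has p := F.2.prop.ne

/-- Basic open set of a condition. -/
def Nb (p : P) : Set (Pt P) := {F | F.has p}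

theorem Nb_mono {p q : P} (h : p ≤ q) : Nb p ⊆ Nb q := fun F hF => F.up hF h

theorem Nb_nonempty (p : P) : (Nb p).Nonempty := exists_pt p

instance : TopologicalSpace (Pt P) := generateFrom {s | ∃ p : P, s = Nb p}

theorem isBasis_Nb : IsTopologicalBasis {s : Set (Pt P) | ∃ p : P, s = Nb p} := by
  refine ⟨?_, ?_, rfl⟩
  · rintro _ ⟨p, rfl⟩ _ ⟨q, rfl⟩ F ⟨hp, hq⟩
    obtain ⟨r, hr, h1, h2⟩ := F.dir hp hq
    exact ⟨Nb r, ⟨r, rfl⟩, hr, fun G hG => ⟨G.up hG h1, G.up hG h2⟩⟩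
  · rw [Set.eq_univ_iff_forall]
    intro F
    obtain ⟨p, hp⟩ := F.nonempty
    exact ⟨Nb p, ⟨p, rfl⟩, hp⟩

theorem isOpen_Nb (p : P) : IsOpen (Nb p) := isBasis_Nb.isOpen ⟨p, rfl⟩

theorem exists_Nb_subset {O : Set (Pt P)} (hO : IsOpen O) {F : Pt P} (hF : F ∈ O) :
    ∃ p, F.has p ∧ Nb p ⊆ O := by
  obtain ⟨_, ⟨p, rfl⟩, h1, h2⟩ := isBasis_Nb.exists_subset_of_mem_open hF hO
  exact ⟨p, h1, h2⟩

/-- Open sets inside a basic open set. -/
theorem exists_le_Nb_subset {O : Set (Pt P)} (hO : IsOpen O) {p : P} (h : (Nb p ∩ O).Nonempty) :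
    ∃ q ≤ p, Nb q ⊆ O := by
  obtain ⟨F, hF1, hF2⟩ := h
  obtain ⟨r, hr, hr'⟩ := exists_Nb_subset hO hF2
  obtain ⟨q, -, h1, h2⟩ := F.dir hF1 hr
  exact ⟨q, h1, (Nb_mono h2).trans hr'⟩

instance : BaireSpace (Pt P) := by
  refine ⟨fun f ho hd => ?_⟩
  rw [dense_iff_inter_open]
  intro O hO hne
  obtain ⟨F0, hF0⟩ := hne
  obtain ⟨p0, hp0, hp0'⟩ := exists_Nb_subset hO hF0
  have step : ∀ (n : ℕ) (p : P), ∃ q ≤ p, Nb q ⊆ f n := by
    intro n p
    have h1 : (Nb p ∩ f n).Nonempty := (hd n).inter_open_nonempty _ (isOpen_Nb p) (Nb_nonempty p)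
    exact exists_le_Nb_subset (ho n) h1
  choose g hg1 hg2 using step
  let s : ℕ → P := fun n => Nat.rec p0 (fun n p => g n p) n
  have hs : ∀ n, s (n + 1) = g n (s n) := fun n => rfl
  obtain ⟨G, hG⟩ := exists_maximal_filt (isFilt_seq s (fun n => by rw [hs]; exact hg1 n _))
  have hmem : ∀ n, G.has (s n) := fun n => hG ⟨n, le_rfl⟩
  refine ⟨G, hp0' (hmem 0), ?_⟩
  rw [Set.mem_iInter]
  intro n
  have := hmem (n + 1)
  rw [hs] at this
  exact hg2 n _ this

/-- A dense set of conditions is met by comeagerly many points. -/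
theorem residual_of_dense {D : Set P} (hD : ∀ p, ∃ q ∈ D, q ≤ p) :
    ∀ᶠ F in residual (Pt P), ∃ q ∈ D, F.has q := by
  have h : {F : Pt P | ∃ q ∈ D, F.has q} = ⋃ q ∈ D, Nb q := by
    ext F; simp [Nb]
  have ho : IsOpen {F : Pt P | ∃ q ∈ D, F.has q} := by
    rw [h]; exact isOpen_biUnion fun q _ => isOpen_Nb q
  have hd : Dense {F : Pt P | ∃ q ∈ D, F.has q} := by
    rw [dense_iff_inter_open]
    intro O hO hne
    obtain ⟨F0, hF0⟩ := hne
    obtain ⟨p, hp, hp'⟩ := exists_Nb_subset hO hF0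
    obtain ⟨q, hq, hqp⟩ := hD p
    obtain ⟨G, hG⟩ := exists_pt q
    exact ⟨G, hp' (G.up hG hqp), q, hq, hG⟩
  exact residual_of_dense_open ho hd

/-- Local version: below `p`. -/
theorem residual_of_dense_below {D : Set P} {p : P} (hD : ∀ r ≤ p, ∃ q ∈ D, q ≤ r) :
    ∀ᶠ F in residual (Pt P), F.has p → ∃ q ∈ D, F.has q := by
  classical
  have h := residual_of_dense (D := {q : P | (q ∈ D) ∨ ∀ r ≤ q, ¬ r ≤ p}) (by
    intro r
    by_cases h : ∃ s ≤ r, s ≤ p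
    · obtain ⟨s, hs1, hs2⟩ := h
      obtain ⟨q, hq, hqs⟩ := hD s hs2
      exact ⟨q, Or.inl hq, hqs.trans hs1⟩
    · push Not at h
      exact ⟨r, Or.inr h, le_rfl⟩)
  filter_upwards [h] with F hF hp
  obtain ⟨q, hq | hq, hqF⟩ := hF
  · exact ⟨q, hq, hqF⟩
  · exfalso
    obtain ⟨r, -, h1, h2⟩ := F.dir hqF hp
    exact hq r h1 h2

/-- Forcing: comeagerly many points of `Nb p` satisfy `Q`. -/
def Frc (p : P) (Q : Pt P → Prop) : Prop := ∀ᶠ F in residual (Pt P), F.has p → Q F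

theorem Frc.mono {p q : P} {Q : Pt P → Prop} (h : Frc p Q) (hq : q ≤ p) : Frc q Q := by
  filter_upwards [h] with F hF hF'
  exact hF (F.up hF' hq)

theorem Frc.imp {p : P} {Q R : Pt P → Prop} (h : Frc p Q) (hi : ∀ F, Q F → R F) : Frc p R := by
  filter_upwards [h] with F hF hF'
  exact hi F (hF hF')

theorem Frc.and {p : P} {Q R : Pt P → Prop} (h : Frc p Q) (h' : Frc p R) :
    Frc p (fun F => Q F ∧ R F) := by
  filter_upwards [h, h'] with F h1 h2 h3
  exact ⟨h1 h3, h2 h3⟩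

theorem Frc.all {ι : Sort*} [Countable ι] {p : P} {Q : ι → Pt P → Prop} (h : ∀ i, Frc p (Q i)) :
    Frc p (fun F => ∀ i, Q i F) := by
  have : ∀ᶠ F in residual (Pt P), ∀ i, F.has p → Q i F := by
    rw [eventually_countable_forall]; exact h
  filter_upwards [this] with F h1 h2 i
  exact h1 i h2

theorem Frc.of_residual {p : P} {Q : Pt P → Prop} (h : ∀ᶠ F in residual (Pt P), Q F) : Frc p Q := by
  filter_upwards [h] with F hF _ using hF

/-- A forced statement is true somewhere. -/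
theorem Frc.exists {p : P} {Q : Pt P → Prop} (h : Frc p Q) : ∃ F : Pt P, F.has p ∧ Q F :=
  exists_of_residual (isOpen_Nb p) (Nb_nonempty p) h

theorem Frc.not_false {p : P} (h : Frc p (fun _ => False)) : False := by
  obtain ⟨F, -, hF⟩ := h.exists
  exact hF

/-- Some stronger condition decides a Baire measurable statement negatively if it is not
forced. -/
theorem exists_frc_not {p : P} {Q : Pt P → Prop} (hQ : BaireMeasurableSet {F | Q F})
    (h : ¬ Frc p Q) : ∃ q ≤ p, Frc q (fun F => ¬ Q F) := by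
  obtain ⟨u, hu, hQu⟩ := (hQ.compl).residualEq_isOpen
  have h1 : (Nb p ∩ u).Nonempty := by
    by_contra hem
    apply h
    filter_upwards [hQu] with F hF hp
    by_contra hn
    have h2 : (F ∈ {F | Q F}ᶜ) = (F ∈ u) := hF
    have h3 : F ∈ u := by rw [← h2]; exact hn
    exact hem ⟨F, hp, h3⟩
  obtain ⟨q, hq, hqu⟩ := exists_le_Nb_subset hu h1
  refine ⟨q, hq, ?_⟩
  filter_upwards [hQu] with F hF hp
  have h2 : (F ∈ {F | Q F}ᶜ) = (F ∈ u) := hF
  have h3 : F ∈ {F | Q F}ᶜ := by rw [h2]; exact hqu hp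
  exact h3

/-- A forced countable disjunction is decided by some stronger condition. -/
theorem Frc.exists_decide {ι : Sort*} [Countable ι] {p : P} {Q : ι → Pt P → Prop}
    (hQ : ∀ i, BaireMeasurableSet {F | Q i F}) (h : Frc p (fun F => ∃ i, Q i F)) :
    ∃ q ≤ p, ∃ i, Frc q (Q i) := by
  by_contra hcon
  push Not at hcon
  have h1 : ∀ i, Frc p (fun F => ¬ Q i F) := by
    intro i
    by_contra h2
    have hm : BaireMeasurableSet {F | ¬ Q i F} := (hQ i).compl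
    obtain ⟨q, hq, h3⟩ := exists_frc_not hm h2
    exact hcon q hq i (h3.imp fun F hF => not_not.1 hF)
  have h2 := Frc.all h1
  have h3 := h.and h2
  exact Frc.not_false (h3.imp (fun F hF => by
    obtain ⟨⟨i, hi⟩, h4⟩ := hF
    exact h4 i hi))

theorem at_of_frc {p : P} {b : RO (Pt P)} (h : Frc p (fun F => At F b)) {F : Pt P}
    (hF : F.has p) : At F b := by
  have h1 : RO.of (⟨Nb p, isOpen_Nb p⟩ : Opens (Pt P)) ≤ b := by
    rw [le_iff_residual]
    filter_upwards [h, residual_compl_compl (⟨Nb p, isOpen_Nb p⟩ : Opens (Pt P))] with G h1 h2 h3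
    exact h1 (h2.1 h3)
  exact h1 (le_compl_compl (a := (⟨Nb p, isOpen_Nb p⟩ : Opens (Pt P))) hF)

theorem exists_frc_of_ne_bot {b : RO (Pt P)} (h : b ≠ ⊥) : ∃ p, Frc p (fun F => At F b) := by
  have : ∃ F, At F b := by
    by_contra hn
    push Not at hn
    apply h
    rw [← le_bot_iff, le_iff_at]
    exact fun x hx => absurd hx (hn x)
  obtain ⟨F, hF⟩ := this
  obtain ⟨p, -, hp'⟩ := exists_Nb_subset (isOpen_at b) hF
  exact ⟨p, Eventually.of_forall fun G hG => hp' hG⟩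

/-- To show `b ≤ c` it suffices to refute stronger conditions. -/
theorem le_of_forall_frc {b c : RO (Pt P)}
    (h : ∀ p, Frc p (fun F => At F b) → Frc p (fun F => ¬ At F c) → False) : b ≤ c := by
  by_contra hab
  have hne : b ⊓ cᶜ ≠ ⊥ := by
    intro h'
    apply hab
    rw [← sdiff_eq_bot_iff, sdiff_eq]
    exact h'
  obtain ⟨p, hp⟩ := exists_frc_of_ne_bot hne
  refine h p (hp.imp fun F hF => hF.1) ?_
  filter_upwards [hp, at_compl c] with F h1 h2 h3
  exact h2.1 (h1 h3).2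

end Pool.Agent.Lib.BVM
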