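import Mathlib
import Pool.Agent.Lib.BVM.Points

/-! Baire measurable maps on the space of points. -/

universe u

open TopologicalSpace Filter Topology

namespace Pool.Agent.Lib.BVM

variable {P : Type u} [Preorder P]

/-- The σ-algebra of the sets with the property of Baire. -/
instance : MeasurableSpace (Pt P) :=
  eventuallyMeasurableSpace (borel (Pt P)) (residual (Pt P))

theorem measurableSet_iff_baire {A : Set (Pt P)} : MeasurableSet A ↔ BaireMeasurableSet A := Iff.rfl

theorem measurableSet_of_isOpen {A : Set (Pt P)} (h : IsOpen A) : MeasurableSet A :=
  h.baireMeasurableSet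

theorem measurableSet_at (b : RO (Pt P)) : MeasurableSet {F | At F b} := at_baire b

theorem measurableSet_has (p : P) : MeasurableSet {F : Pt P | F.has p} :=
  measurableSet_of_isOpen (isOpen_Nb p)

theorem measurableSet_of_residual {A : Set (Pt P)} (h : ∀ᶠ F in residual (Pt P), F ∈ A) :
    MeasurableSet A := BaireMeasurableSet.of_mem_residual h

/-- A map to `ℕ → α`, `α` countable and discrete, is measurable when its level sets are. -/
theorem measurable_of_level {α : Type*} [Countable α] [MeasurableSpace α]
    [MeasurableSingletonClass α] {ι : Type*} {g : Pt P → ι → α}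
    (h : ∀ i a, MeasurableSet {F | g F i = a}) : Measurable g := by
  rw [measurable_pi_iff]
  intro i
  exact measurable_to_countable' fun a => h i a

theorem measurableSet_level {α : Type*} [MeasurableSpace α]
    [MeasurableSingletonClass α] {ι : Type*} {g : Pt P → ι → α} (hg : Measurable g) (i : ι) (a : α) :
    MeasurableSet {F | g F i = a} :=
  (measurable_pi_apply i).comp hg (measurableSet_singleton a)

theorem measurableSet_at_bet {A : Set (Pt P)} (h : MeasurableSet A) :
    ∀ᶠ F in residual (Pt P), (At F (bet A) ↔ F ∈ A) := at_bet h

end Pool.Agent.Lib.BVM
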