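import Mathlib
import Pool.Agent.Lib.BVM.Check

/-! The axioms of ZFC hold in the quotient of the Boolean-valued universe, part 3:
choice, infinity, and the theorem. -/

namespace Pool.Agent.Lib.BVM

open BSet

universe u

variable {B : Type u} [CompleteBooleanAlgebra B]

section Choice

variable (x : BSet B)

/-- index of all generators of elements of `x` -/
def GIdx : Type u := Σ i : x.Idx, (x.fn i).Idx

variable {x}

/-- generator -/
def gen (p : GIdx x) : BSet B := (x.fn p.1).fn p.2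

open Classical in
/-- weight: `gen p` is the first generator that is an element of `y`. -/
noncomputable def firstIn (y : BSet B) (p : GIdx x) : B :=
  bMem (gen p) y ⊓ ⨅ q : {q : GIdx x // WellOrderingRel q p}, (bMem (gen q.1) y)ᶜ

theorem ext1_firstIn (p : GIdx x) : Ext1 (fun y => firstIn y p) := by
  unfold firstIn
  exact (ext1_mem_right _).inf (Ext1.iInf fun q => (ext1_mem_right _).compl)

theorem firstIn_disjoint (y : BSet B) (p q : GIdx x) (h : p ≠ q) :
    firstIn y p ⊓ firstIn y q = ⊥ := by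
  have key : ∀ p q : GIdx x, WellOrderingRel p q → firstIn y p ⊓ firstIn y q ≤ ⊥ := by
    intro p q hpq
    unfold firstIn
    have h1 : (⨅ r : {r : GIdx x // WellOrderingRel r q}, (bMem (gen r.1) y)ᶜ) ≤
        (bMem (gen p) y)ᶜ := iInf_le (fun r : {r : GIdx x // WellOrderingRel r q} =>
          (bMem (gen r.1) y)ᶜ) ⟨p, hpq⟩
    rw [← inf_compl_eq_bot (a := bMem (gen p) y)]
    exact le_inf (inf_le_left.trans inf_le_left) ((inf_le_right.trans inf_le_right).trans h1)
  rw [← le_bot_iff]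
  have : IsWellOrder (GIdx x) WellOrderingRel := WellOrderingRel.isWellOrder
  rcases trichotomous_of WellOrderingRel p q with h' | h' | h'
  · exact key p q h'
  · exact absurd h' h
  · rw [inf_comm]; exact key q p h'

theorem mem_le_firstIn (y : BSet B) (p : GIdx x) : bMem (gen p) y ≤ ⨆ q : GIdx x, firstIn y q := by
  have : IsWellOrder (GIdx x) WellOrderingRel := WellOrderingRel.isWellOrder
  induction p using (IsWellFounded.wf (r := (WellOrderingRel : GIdx x → GIdx x → Prop))).induction with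
  | _ p ih =>
    have h1 : bMem (gen p) y ≤ firstIn y p ⊔
        ⨆ q : {q : GIdx x // WellOrderingRel q p}, bMem (gen q.1) y := by
      unfold firstIn
      have h2 : (⨅ q : {q : GIdx x // WellOrderingRel q p}, (bMem (gen q.1) y)ᶜ) =
          (⨆ q : {q : GIdx x // WellOrderingRel q p}, bMem (gen q.1) y)ᶜ := by
        rw [compl_iSup]
      rw [h2, ← sdiff_eq, sdiff_sup_self]
      exact le_sup_left
    refine h1.trans (sup_le (le_iSup (fun q => firstIn y q) p) (iSup_le fun q => ih q.1 q.2))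

/-- The name of a transversal. -/
noncomputable def transv (x : BSet B) : BSet B :=
  mk (GIdx x) (fun p => gen p) (fun p => ⨆ y, bMem y x ⊓ firstIn y p)

/-- value of `x is pairwise disjoint` -/
def pwDisj (x : BSet B) : B :=
  ⨅ y, ⨅ y', ((bMem y x ⊓ bMem y' x ⊓ ⨆ z, bMem z y ⊓ bMem z y') ⇨ bEq y y')

theorem transv_le (x y z : BSet B) : pwDisj x ⊓ bMem y x ⊓ bMem z y ⊓ bMem z (transv x) ≤
    ⨆ p : GIdx x, firstIn y p ⊓ bEq z (gen p) := by
  rw [transv, bMem_mk, inf_iSup_eq]
  refine iSup_mono fun p => ?_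
  rw [iSup_inf_eq, inf_iSup_eq]
  refine iSup_le fun y' => ?_
  set T := pwDisj x ⊓ bMem y x ⊓ bMem z y ⊓ (bMem y' x ⊓ firstIn y' p ⊓ bEq z (gen p)) with hT
  have t1 : T ≤ pwDisj x := inf_le_left.trans (inf_le_left.trans inf_le_left)
  have t2 : T ≤ bMem y x := inf_le_left.trans (inf_le_left.trans inf_le_right)
  have t3 : T ≤ bMem z y := inf_le_left.trans inf_le_right
  have t4 : T ≤ bMem y' x := inf_le_right.trans (inf_le_left.trans inf_le_left)
  have t5 : T ≤ firstIn y' p := inf_le_right.trans (inf_le_left.trans inf_le_right)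
  have t6 : T ≤ bEq z (gen p) := inf_le_right.trans inf_le_right
  have t7 : T ≤ bMem (gen p) y' := t5.trans inf_le_left
  have t8 : T ≤ bMem z y' := by
    refine le_trans (le_inf ?_ t7) (bMem_congr_left (gen p) z y')
    rw [bEq_symm]; exact t6
  have t9 : T ≤ bEq y y' := by
    have h1 : pwDisj x ≤ (bMem y x ⊓ bMem y' x ⊓ ⨆ z, bMem z y ⊓ bMem z y') ⇨ bEq y y' :=
      (iInf_le _ y).trans (iInf_le _ y')
    have h2 : T ≤ bMem y x ⊓ bMem y' x ⊓ ⨆ z, bMem z y ⊓ bMem z y' :=
      le_inf (le_inf t2 t4) ((le_inf t3 t8).trans (le_iSup (fun z => bMem z y ⊓ bMem z y') z))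
    exact le_trans (le_inf (t1.trans h1) h2) himp_inf_le
  refine le_inf ?_ t6
  refine le_trans (le_inf ?_ t5) (ext1_firstIn p y' y)
  rw [bEq_symm]; exact t9

theorem transv_unique (x y z z' : BSet B) :
    pwDisj x ⊓ bMem y x ⊓ (bMem z y ⊓ bMem z (transv x)) ⊓ (bMem z' y ⊓ bMem z' (transv x)) ≤
      bEq z z' := by
  set T := pwDisj x ⊓ bMem y x ⊓ (bMem z y ⊓ bMem z (transv x)) ⊓ (bMem z' y ⊓ bMem z' (transv x))
  have h1 : T ≤ ⨆ p : GIdx x, firstIn y p ⊓ bEq z (gen p) := by
    refine le_trans ?_ (transv_le x y z)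
    refine inf_le_left.trans ?_
    rw [← inf_assoc]
  have h2 : T ≤ ⨆ p : GIdx x, firstIn y p ⊓ bEq z' (gen p) := by
    refine le_trans ?_ (transv_le x y z')
    refine le_trans (inf_le_inf_right _ inf_le_left) ?_
    rw [← inf_assoc]
  refine (le_inf h1 h2).trans ?_
  rw [iSup_inf_iSup]
  refine iSup_le ?_
  rintro ⟨p, q⟩
  dsimp only
  by_cases h : p = q
  · subst h
    calc firstIn y p ⊓ bEq z (gen p) ⊓ (firstIn y p ⊓ bEq z' (gen p))
        ≤ bEq z (gen p) ⊓ bEq (gen p) z' := by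
          refine le_inf (inf_le_left.trans inf_le_right) ?_
          rw [bEq_symm (gen p)]; exact inf_le_right.trans inf_le_right
      _ ≤ bEq z z' := bEq_trans _ _ _
  · have := firstIn_disjoint y p q h
    calc firstIn y p ⊓ bEq z (gen p) ⊓ (firstIn y q ⊓ bEq z' (gen q))
        ≤ firstIn y p ⊓ firstIn y q := inf_le_inf inf_le_left inf_le_left
      _ = ⊥ := this
      _ ≤ _ := bot_le

theorem transv_exists (x y z : BSet B) :
    bMem y x ⊓ bMem z y ≤ ⨆ w, bMem w y ⊓ bMem w (transv x) := by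
  -- `z` is a generator
  have h1 : bMem y x ⊓ bMem z y ≤ ⨆ p : GIdx x, bMem (gen p) y := by
    rw [bMem, iSup_inf_eq]
    refine iSup_le fun i => ?_
    calc x.val i ⊓ bEq y (x.fn i) ⊓ bMem z y ≤ bEq y (x.fn i) ⊓ bMem z (x.fn i) := by
          refine le_inf (inf_le_left.trans inf_le_right) ?_
          exact le_trans (le_inf (inf_le_left.trans inf_le_right) inf_le_right)
            (bMem_congr_right y (x.fn i) z)
      _ ≤ ⨆ p : GIdx x, bMem (gen p) y := by
          have e : bMem z (x.fn i) = ⨆ k, (x.fn i).val k ⊓ bEq z ((x.fn i).fn k) := rfl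
          rw [e, inf_iSup_eq]
          refine iSup_le fun k => ?_
          refine le_trans ?_ (le_iSup _ (⟨i, k⟩ : GIdx x))
          refine le_trans (le_inf inf_le_left (inf_le_right.trans inf_le_left)) ?_
          refine le_trans (inf_le_inf_left _ (val_le_bMem (x.fn i) k)) ?_
          rw [bEq_symm]
          exact bMem_congr_right (x.fn i) y _
  have h2 : bMem y x ⊓ bMem z y ≤ ⨆ p : GIdx x, firstIn y p :=
    h1.trans (iSup_le fun p => mem_le_firstIn y p)
  refine le_trans (le_inf inf_le_left h2) ?_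
  rw [inf_iSup_eq]
  refine iSup_le fun p => ?_
  refine le_trans ?_ (le_iSup _ (gen p))
  refine le_inf (inf_le_right.trans inf_le_left) ?_
  refine le_trans (le_iSup (fun y => bMem y x ⊓ firstIn y p) y) ?_
  exact val_le_bMem (transv x) p

end Choice

/-- Names of the natural numbers. -/
def bNum : ℕ → BSet B
  | 0 => bEmpty
  | n + 1 => bSucc (bNum n)

/-- The name of the set of natural numbers. -/
def bOmega (B : Type u) [CompleteBooleanAlgebra B] : BSet B :=
  mk (ULift.{u} ℕ) (fun n => bNum n.down) (fun _ => ⊤)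

theorem bMem_bOmega (z : BSet B) : bMem z (bOmega B) = ⨆ n : ℕ, bEq z (bNum n) := by
  rw [bOmega, bMem_mk]
  simp only [top_inf_eq]
  apply le_antisymm
  · exact iSup_le fun n => le_iSup (fun n : ℕ => bEq z (bNum n)) n.down
  · exact iSup_le fun n => le_iSup (fun n : ULift.{u} ℕ => bEq z (bNum n.down)) ⟨n⟩

namespace Ult

variable (U : Ult B)

theorem choice_ax : ∀ x : U.Mod, (∀ y, U.E y x → ∃ z, U.E z y) →
    (∀ y y', U.E y x → U.E y' x → (∃ z, U.E z y ∧ U.E z y') → y = y') →
      ∃ t, ∀ y, U.E y x → ∃! z, U.E z y ∧ U.E z t := by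
  intro x hne hdis
  obtain ⟨x, rfl⟩ := U.exists_cls x
  have hD : U.S (pwDisj x) := by
    unfold pwDisj
    have e2 : ∀ y, Ext1 (fun y' => (bMem y x ⊓ bMem y' x ⊓ ⨆ z, bMem z y ⊓ bMem z y') ⇨
        bEq y y') := fun y =>
      (((Ext1.const _).inf (ext1_mem_left x)).inf
        (Ext1.iSup fun z => (Ext1.const _).inf (ext1_mem_right z))).himp (fun a b => by
          rw [inf_comm]; exact bEq_trans y a b)
    have e1 : Ext1 (fun y => ⨅ y', ((bMem y x ⊓ bMem y' x ⊓ ⨆ z, bMem z y ⊓ bMem z y') ⇨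
        bEq y y')) := Ext1.iInf fun y' =>
      (((ext1_mem_left x).inf (Ext1.const _)).inf
        (Ext1.iSup fun z => (ext1_mem_right z).inf (Ext1.const _))).himp (ext1_eq y')
    rw [U.iInf_iff e1]
    intro y
    rw [U.iInf_iff (e2 y)]
    intro y'
    rw [U.himp_iff, U.inf_iff, U.inf_iff, U.iSup_iff ((ext1_mem_left y).inf (ext1_mem_left y'))]
    rintro ⟨⟨h1, h2⟩, z, hz⟩
    rw [U.inf_iff] at hz
    rw [← U.cls_eq_iff]
    exact hdis (U.cls y) (U.cls y') h1 h2 ⟨U.cls z, hz.1, hz.2⟩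
  refine ⟨U.cls (transv x), fun y hy => ?_⟩
  obtain ⟨z, hz⟩ := hne y hy
  obtain ⟨y, rfl⟩ := U.exists_cls y
  obtain ⟨z, rfl⟩ := U.exists_cls z
  have h1 := U.mono' (transv_exists x y z) (U.inf' hy hz)
  rw [U.iSup_iff ((ext1_mem_left y).inf (ext1_mem_left _))] at h1
  obtain ⟨w, hw⟩ := h1
  refine ⟨U.cls w, U.inf_iff.1 hw, ?_⟩
  rintro w' ⟨h2, h3⟩
  obtain ⟨w', rfl⟩ := U.exists_cls w'
  rw [cls_eq_iff]
  exact U.mono' (transv_unique x y w' w) (U.inf' (U.inf' (U.inf' hD hy) (U.inf' h2 h3)) hw)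

theorem infinity_ax : ∃ w : U.Mod, (∃ e, U.E e w ∧ ∀ z, ¬ U.E z e) ∧
    ∀ x, U.E x w → ∃ s, U.E s w ∧ ∀ z, U.E z s ↔ U.E z x ∨ z = x := by
  refine ⟨U.cls (bOmega B), ⟨U.cls (bNum 0), ?_, ?_⟩, ?_⟩
  · rw [E_cls, bMem_bOmega]
    refine U.mono' ?_ U.top'
    refine le_trans ?_ (le_iSup _ 0)
    rw [bEq_refl]
  · intro z hz
    obtain ⟨z, rfl⟩ := U.exists_cls z
    rw [E_cls, bNum, bMem_bEmpty] at hz
    exact U.bot' hz
  · intro x hx
    obtain ⟨x, rfl⟩ := U.exists_cls x
    refine ⟨U.cls (bSucc x), ?_, ?_⟩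
    · rw [E_cls] at hx ⊢
      refine U.mono' ?_ hx
      rw [bMem_bOmega x, bMem_bOmega (bSucc x)]
      refine iSup_le fun n => ?_
      have h1 : bEq x (bNum n) ≤ bEq (bSucc x) (bNum (n + 1)) := by
        rw [bEq_eq_iInf (bSucc x)]
        refine le_iInf fun z => ?_
        rw [bNum, bMem_bSucc, bMem_bSucc]
        refine le_inf ?_ ?_
        · rw [le_himp_iff, inf_sup_left]
          refine sup_le_sup (bMem_congr_right _ _ _) ?_
          rw [inf_comm]; exact bEq_trans _ _ _
        · rw [le_himp_iff, inf_sup_left, bEq_symm x (bNum n)]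
          refine sup_le_sup (bMem_congr_right _ _ _) ?_
          rw [inf_comm]; exact bEq_trans _ _ _
      refine le_trans ?_ (le_iSup (fun n : ℕ => bEq (bSucc x) (bNum n)) (n + 1))
      exact h1
    · intro z
      obtain ⟨z, rfl⟩ := U.exists_cls z
      rw [E_cls, bMem_bSucc, U.sup_iff, cls_eq_iff, E_cls]

/-- The quotient of the Boolean-valued universe by an ultrafilter is a model of ZFC. -/
theorem isZFC : IsZFC U.E where
  extensionality := U.ext_ax
  foundation := U.found_ax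
  pairing := U.pair_ax
  union := U.union_ax
  power := U.power_ax
  infinity := U.infinity_ax
  separation := U.sep_ax
  replacement := U.repl_ax
  choice := U.choice_ax

end Ult

end Pool.Agent.Lib.BVM
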