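import Mathlib
import Pool.Agent.Lib.BVM.ZFC3

/-! Ordered pairs of names, one-point rules, relations given by Boolean values. -/

universe u

namespace Pool.Agent.Lib.BVM

open BSet

section

variable {B : Type u} [CompleteBooleanAlgebra B]

/-- Inequalities can be checked on ultrafilters. -/
theorem le_of_forall_ult {x y : B} (h : ∀ U : Ult B, U.S x → U.S y) : x ≤ y := by
  by_contra hxy
  have hne : x ⊓ yᶜ ≠ ⊥ := by
    intro h'
    apply hxy
    rw [← sdiff_eq_bot_iff, sdiff_eq]
    exact h'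
  obtain ⟨U, hU⟩ := exists_ult hne
  rw [U.inf_iff, U.compl'] at hU
  exact hU.2 (h U hU.1)

theorem eq_of_forall_ult {x y : B} (h : ∀ U : Ult B, U.S x ↔ U.S y) : x = y :=
  le_antisymm (le_of_forall_ult fun U => (h U).1) (le_of_forall_ult fun U => (h U).2)

/-- One-point rule. -/
theorem iSup_bEq_inf {φ : BSet B → B} (h : Ext1 φ) (c : BSet B) :
    (⨆ s, bEq s c ⊓ φ s) = φ c := by
  apply le_antisymm
  · exact iSup_le fun s => h s c
  · refine le_trans ?_ (le_iSup _ c)
    rw [bEq_refl, top_inf_eq]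

theorem iInf_bEq_himp {φ : BSet B → B} (h : Ext1 φ) (c : BSet B) :
    (⨅ s, (bEq s c ⇨ φ s)) = φ c := by
  apply le_antisymm
  · refine (iInf_le _ c).trans ?_
    rw [bEq_refl, top_himp]
  · refine le_iInf fun s => ?_
    rw [le_himp_iff, inf_comm, bEq_symm]
    exact h c s

/-- ordered pair -/
def opair (a b : BSet B) : BSet B := upair (upair a a) (upair a b)

theorem U_upair_iff (U : Ult B) (z a b : BSet B) :
    U.E (U.cls z) (U.cls (upair a b)) ↔ U.cls z = U.cls a ∨ U.cls z = U.cls b := by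
  rw [U.E_cls, bMem_upair, U.sup_iff, U.cls_eq_iff, U.cls_eq_iff]

theorem U_upair_eq (U : Ult B) {a b a' b' : BSet B}
    (h : U.cls (upair a b) = U.cls (upair a' b')) :
    (U.cls a = U.cls a' ∧ U.cls b = U.cls b') ∨ (U.cls a = U.cls b' ∧ U.cls b = U.cls a') := by
  have h1 := (U_upair_iff U a a' b').1 (by rw [← h]; exact (U_upair_iff U a a b).2 (Or.inl rfl))
  have h2 := (U_upair_iff U b a' b').1 (by rw [← h]; exact (U_upair_iff U b a b).2 (Or.inr rfl))
  have h3 := (U_upair_iff U a' a b).1 (by rw [h]; exact (U_upair_iff U a' a' b').2 (Or.inl rfl))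
  have h4 := (U_upair_iff U b' a b).1 (by rw [h]; exact (U_upair_iff U b' a' b').2 (Or.inr rfl))
  rcases h1 with h1 | h1 <;> rcases h2 with h2 | h2
  · left
    refine ⟨h1, ?_⟩
    rcases h4 with h4 | h4
    · rw [h2, ← h1, ← h4]
    · exact h4.symm
  · exact Or.inl ⟨h1, h2⟩
  · exact Or.inr ⟨h1, h2⟩
  · right
    refine ⟨h1, ?_⟩
    rcases h3 with h3 | h3
    · rw [h2, ← h1, ← h3]
    · exact h3.symm

theorem bEq_upair_congr (U : Ult B) {a b a' b' : BSet B} (ha : U.cls a = U.cls a')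
    (hb : U.cls b = U.cls b') : U.cls (upair a b) = U.cls (upair a' b') := by
  apply U.ext_ax
  intro z
  obtain ⟨z, rfl⟩ := U.exists_cls z
  rw [U_upair_iff, U_upair_iff, ha, hb]

theorem U_opair_eq (U : Ult B) {a b a' b' : BSet B} :
    U.cls (opair a b) = U.cls (opair a' b') ↔ U.cls a = U.cls a' ∧ U.cls b = U.cls b' := by
  constructor
  · intro h
    rcases U_upair_eq U h with ⟨h1, h2⟩ | ⟨h1, h2⟩
    · have ha : U.cls a = U.cls a' := by
        rcases U_upair_eq U h1 with h3 | h3 <;> exact h3.1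
      refine ⟨ha, ?_⟩
      rcases U_upair_eq U h2 with ⟨h3, h4⟩ | ⟨h3, h4⟩
      · exact h4
      · rw [h4, ← ha, h3]
    · -- {a,a} = {a',b'}, {a,b} = {a',a'}
      rcases U_upair_eq U h1 with ⟨h3, h4⟩ | ⟨h3, h4⟩
      · rcases U_upair_eq U h2 with ⟨h5, h6⟩ | ⟨h5, h6⟩
        · exact ⟨h3, by rw [h6, ← h3, h4]⟩
        · exact ⟨h3, by rw [h6, ← h3, h4]⟩
      · rcases U_upair_eq U h2 with ⟨h5, h6⟩ | ⟨h5, h6⟩
        · exact ⟨h4, by rw [h6, ← h4, h3]⟩
        · exact ⟨h4, by rw [h6, ← h4, h3]⟩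
  · rintro ⟨h1, h2⟩
    exact bEq_upair_congr U (bEq_upair_congr U h1 h1) (bEq_upair_congr U h1 h2)

theorem bEq_opair (a b a' b' : BSet B) :
    bEq (opair a b) (opair a' b') = bEq a a' ⊓ bEq b b' := by
  apply eq_of_forall_ult
  intro U
  rw [U.inf_iff, ← U.cls_eq_iff, ← U.cls_eq_iff, ← U.cls_eq_iff, U_opair_eq]

theorem ext1_opair_left (b x : BSet B) : Ext1 (fun a => bMem (opair a b) x) := by
  intro a a'
  refine le_trans (le_inf ?_ inf_le_right) (bMem_congr_left (opair a b) (opair a' b) x)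
  rw [bEq_opair, bEq_refl, inf_top_eq]
  exact inf_le_left

theorem ext1_opair_right (a x : BSet B) : Ext1 (fun b => bMem (opair a b) x) := by
  intro b b'
  refine le_trans (le_inf ?_ inf_le_right) (bMem_congr_left (opair a b) (opair a b') x)
  rw [bEq_opair, bEq_refl, top_inf_eq]
  exact inf_le_left

/-- Name of a relation: the pairs `(A i, C j)` with weights `w i j`. -/
def relName {ι κ : Type u} (A : ι → BSet B) (C : κ → BSet B) (w : ι → κ → B) : BSet B :=
  mk (ι × κ) (fun x => opair (A x.1) (C x.2)) (fun x => w x.1 x.2)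

theorem bMem_relName {ι κ : Type u} (A : ι → BSet B) (C : κ → BSet B) (w : ι → κ → B)
    (a c : BSet B) : bMem (opair a c) (relName A C w) =
      ⨆ i, ⨆ j, w i j ⊓ (bEq a (A i) ⊓ bEq c (C j)) := by
  rw [relName, bMem_mk, iSup_prod]
  simp only [bEq_opair]

end

section

variable {B : Type u} [CompleteBooleanAlgebra B]

theorem iSup_chk_inf {I : Type u} [LinearOrder I] [WellFoundedLT I] (i : I) (f : I → B) :
    (⨆ j, f j ⊓ bEq (chk B i) (chk B j)) = f i := by
  apply le_antisymm
  · refine iSup_le fun j => ?_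
    by_cases h : i = j
    · subst h; exact inf_le_left
    · rw [chk_eq_of_ne h, inf_bot_eq]; exact bot_le
  · refine le_trans ?_ (le_iSup _ i)
    rw [bEq_refl, inf_top_eq]

/-- Value of a relation between check names. -/
theorem bMem_relName_chk {I J : Type u} [LinearOrder I] [WellFoundedLT I] [LinearOrder J]
    [WellFoundedLT J] (w : I → J → B) (i : I) (j : J) :
    bMem (opair (chk B i) (chk B j)) (relName (fun i : I => chk B i) (fun j : J => chk B j) w) =
      w i j := by
  rw [bMem_relName]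
  have : ∀ i', (⨆ j', w i' j' ⊓ (bEq (chk B i) (chk B i') ⊓ bEq (chk B j) (chk B j'))) =
      w i' j ⊓ bEq (chk B i) (chk B i') := by
    intro i'
    rw [← iSup_chk_inf (B := B) j (fun j' => w i' j'), iSup_inf_eq]
    refine iSup_congr fun j' => ?_
    rw [inf_assoc, inf_comm (bEq (chk B j) (chk B j'))]
  simp only [this]
  exact iSup_chk_inf i (fun i' => w i' j)

end

end Pool.Agent.Lib.BVM
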